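import Pool.Agent.Work.MP_9f8812_co.RD.Stmts

/-!
# Item A4 of block RD: averaging in dimension four
-/

set_option autoImplicit false

namespace Pool.Agent.Work.MP_9f8812_co.RD

open Submodule Module

namespace IA4

variable {V : Type} [AddCommGroup V] [Module (ZMod 2) V]

theorem zcases (t : ZMod 2) : t = 0 ∨ t = 1 := by
  revert t; decide

theorem indep {a b c : V} (ha : a ≠ 0) (hb : b ≠ 0) (hc : c ≠ 0) (hab : a ≠ b) (hac : a ≠ c)
    (hbc : b ≠ c) (habc : c ≠ a + b) : LinearIndependent (ZMod 2) ![a, b, c] := by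
  have hadd : ∀ x y : V, x + y = 0 → x = y := by
    intro x y h
    have h2 : y + y = 0 := ZModModule.add_self y
    calc x = x + (y + y) := by rw [h2, add_zero]
      _ = (x + y) + y := by abel
      _ = y := by rw [h, zero_add]
  rw [Fintype.linearIndependent_iff]
  intro g hg
  rw [Fin.sum_univ_three] at hg
  simp only [Matrix.cons_val_zero, Matrix.cons_val_one, Matrix.cons_val_two,
    Matrix.head_cons, Matrix.tail_cons] at hg
  rcases zcases (g 0) with h0 | h0 <;> rcases zcases (g 1) with h1 | h1 <;>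
    rcases zcases (g 2) with h2 | h2 <;>
    simp only [h0, h1, h2, zero_smul, one_smul, zero_add, add_zero] at hg
  · intro i; fin_cases i <;> assumption
  · exact absurd hg hc
  · exact absurd hg hb
  · exact absurd (hadd _ _ hg) hbc
  · exact absurd hg ha
  · exact absurd (hadd _ _ hg) hac
  · exact absurd (hadd _ _ hg) hab
  · exact absurd (hadd _ _ hg).symm habc

theorem exf {a b c : V} (h : LinearIndependent (ZMod 2) ![a, b, c]) :
    ∃ f : V →ₗ[ZMod 2] ZMod 2, f a = 1 ∧ f b = 1 ∧ f c = 1 := by
  obtain ⟨g, hg⟩ := LinearMap.exists_extend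
    ((Finsupp.linearCombination (ZMod 2) (fun _ : Fin 3 => (1 : ZMod 2))) ∘ₗ h.repr)
  have key : ∀ i : Fin 3, g ((![a, b, c] : Fin 3 → V) i) = 1 := by
    intro i
    have h1 : g ((![a, b, c] : Fin 3 → V) i) =
        (g ∘ₗ (span (ZMod 2) (Set.range ![a, b, c])).subtype)
          ⟨(![a, b, c] : Fin 3 → V) i, subset_span ⟨i, rfl⟩⟩ := rfl
    rw [h1, hg, LinearMap.comp_apply, h.repr_eq_single i _ rfl]
    simp
  exact ⟨g, key 0, key 1, key 2⟩

theorem card_ne [FiniteDimensional (ZMod 2) V] [Fintype V] [DecidableEq V]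
    (hV : finrank (ZMod 2) V = 4) (f : V →ₗ[ZMod 2] ZMod 2) (hf : f ≠ 0) :
    (Finset.univ.filter (fun x : V => f x ≠ 0)).card = 8 := by
  have h1 : Fintype.card V = 16 := by
    rw [← Nat.card_eq_fintype_card, Module.natCard_eq_pow_finrank (K := ZMod 2), hV, Nat.card_zmod]
    norm_num
  have hsurj : Function.Surjective f := LinearMap.surjective hf
  have h2 : finrank (ZMod 2) (LinearMap.ker f) = 3 := by
    have h3 := LinearMap.finrank_range_add_finrank_ker f
    rw [LinearMap.range_eq_top.2 hsurj, finrank_top, finrank_self, hV] at h3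
    omega
  have h4 : Nat.card (LinearMap.ker f) = 8 := by
    rw [Module.natCard_eq_pow_finrank (K := ZMod 2), h2, Nat.card_zmod]
    norm_num
  have h5 : (Finset.univ.filter (fun x : V => f x = 0)).card = 8 := by
    rw [← h4, ← Nat.card_eq_finsetCard]
    apply Nat.card_congr
    refine Equiv.subtypeEquivRight (fun x => ?_)
    simp
  have h6 := Finset.card_filter_add_card_filter_not (s := (Finset.univ : Finset V))
    (fun x : V => f x = 0)
  rw [Finset.card_univ, h1, h5] at h6
  simpa using (by omega : (Finset.univ.filter (fun x : V => ¬ f x = 0)).card = 8)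

end IA4

theorem pr_A4 : St_A4 := by
  classical
  intro V _ _ _ E hV h0 hE hf
  have : Finite V := Module.finite_of_finite (ZMod 2)
  have : Fintype V := Fintype.ofFinite V
  obtain ⟨C, hC⟩ : ∃ C : Finset V, C = Finset.univ.filter (fun x => x ≠ 0 ∧ x ∉ E) := ⟨_, rfl⟩
  have hmem : ∀ x, x ∈ C ↔ x ≠ 0 ∧ x ∉ E := by intro x; rw [hC]; simp
  have hcard : Fintype.card V = 16 := by
    rw [← Nat.card_eq_fintype_card, Module.natCard_eq_pow_finrank (K := ZMod 2), hV, Nat.card_zmod]
    norm_num
  -- at least three elements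
  have h3 : 3 ≤ C.card := by
    have hsub : (Finset.univ : Finset V) ⊆ C ∪ (insert 0 E) := by
      intro x _
      rw [Finset.mem_union, hmem, Finset.mem_insert]
      tauto
    have h4 := (Finset.card_le_card hsub).trans (Finset.card_union_le _ _)
    rw [Finset.card_univ, hcard] at h4
    have h5 := Finset.card_insert_le (0 : V) E
    omega
  -- every functional is nonzero on at most two elements
  have h2 : ∀ f : V →ₗ[ZMod 2] ZMod 2, f ≠ 0 → (C.filter (fun x => f x ≠ 0)).card ≤ 2 := by
    intro f hf0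
    have e1 := hf f hf0
    have e2 : supp E f = (E.filter (fun x => f x ≠ 0)).card := by
      unfold supp
      rw [← Set.ncard_coe_finset]
      congr 1
      ext x
      simp
    have e3 : (E.filter (fun x => f x ≠ 0)).card + (C.filter (fun x => f x ≠ 0)).card ≤ 8 := by
      rw [← IA4.card_ne hV f hf0, ← Finset.card_union_of_disjoint]
      · apply Finset.card_le_card
        intro x hx
        rw [Finset.mem_union, Finset.mem_filter, Finset.mem_filter] at hx
        rw [Finset.mem_filter]
        exact ⟨Finset.mem_univ _, by tauto⟩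
      · rw [Finset.disjoint_left]
        intro x hx hx2
        rw [Finset.mem_filter] at hx hx2
        exact ((hmem x).1 hx2.1).2 hx.1
    omega
  obtain ⟨a, ha, b, hb, c, hc, hab, hac, hbc⟩ := Finset.two_lt_card.1 (by omega : 2 < C.card)
  have hsum : ∀ x ∈ C, x = a ∨ x = b ∨ x = a + b := by
    intro x hx
    by_contra hcon
    push Not at hcon
    obtain ⟨hxa, hxb, hxab⟩ := hcon
    obtain ⟨f, f1, f2, f3⟩ := IA4.exf (IA4.indep ((hmem a).1 ha).1 ((hmem b).1 hb).1
      ((hmem x).1 hx).1 hab (Ne.symm hxa) (Ne.symm hxb) hxab)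
    have hf0 : f ≠ 0 := by
      rintro rfl
      simp at f1
    have h4 := h2 f hf0
    have h5 : ({a, b, x} : Finset V) ⊆ C.filter (fun x => f x ≠ 0) := by
      intro y hy
      rw [Finset.mem_insert, Finset.mem_insert, Finset.mem_singleton] at hy
      rw [Finset.mem_filter]
      rcases hy with rfl | rfl | rfl
      · exact ⟨ha, by rw [f1]; exact one_ne_zero⟩
      · exact ⟨hb, by rw [f2]; exact one_ne_zero⟩
      · exact ⟨hx, by rw [f3]; exact one_ne_zero⟩
    have h6 : ({a, b, x} : Finset V).card = 3 :=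
      Finset.card_eq_three.2 ⟨a, b, x, hab, Ne.symm hxa, Ne.symm hxb, rfl⟩
    have h7 := Finset.card_le_card h5
    omega
  have hcab : c = a + b := by
    rcases hsum c hc with h | h | h
    · exact absurd h.symm hac
    · exact absurd h.symm hbc
    · exact h
  have hCeq : C = {a, b, c} := by
    ext x
    rw [Finset.mem_insert, Finset.mem_insert, Finset.mem_singleton]
    constructor
    · intro hx
      rw [hcab]
      exact hsum x hx
    · rintro (rfl | rfl | rfl)
      · exact ha
      · exact hb
      · exact hc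
  have hC3 : C.card = 3 := by
    rw [hCeq]
    exact Finset.card_eq_three.2 ⟨a, b, c, hab, hac, hbc, rfl⟩
  have hadd : ∀ x ∈ C, ∀ y ∈ C, x ≠ y → x + y ∈ C := by
    have haa : a + a = 0 := ZModModule.add_self a
    have hbb : b + b = 0 := ZModModule.add_self b
    have e1 : a + c = b := by rw [hcab, ← add_assoc, haa, zero_add]
    have e2 : b + c = a := by rw [hcab, add_comm a b, ← add_assoc, hbb, zero_add]
    intro x hx y hy hxy
    rw [hCeq, Finset.mem_insert, Finset.mem_insert, Finset.mem_singleton] at hx hy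
    rcases hx with rfl | rfl | rfl <;> rcases hy with rfl | rfl | rfl
    · exact absurd rfl hxy
    · rw [← hcab]; exact hc
    · rw [e1]; exact hb
    · rw [add_comm, ← hcab]; exact hc
    · exact absurd rfl hxy
    · rw [e2]; exact ha
    · rw [add_comm, e1]; exact hb
    · rw [add_comm, e2]; exact ha
    · exact absurd rfl hxy
  refine ⟨?_, ?_⟩
  · unfold a1
    rw [← hC3, ← Nat.card_eq_finsetCard]
    apply Nat.card_congr
    exact Equiv.subtypeEquivRight (fun x => (hmem x).symm)
  · have h6 : C.offDiag.card = 6 := by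
      rw [Finset.offDiag_card, hC3]
    unfold a2
    rw [← h6, ← Nat.card_eq_finsetCard]
    apply Nat.card_congr
    refine Equiv.subtypeEquivRight (fun p => ?_)
    rw [Finset.mem_offDiag, hmem, hmem]
    constructor
    · rintro ⟨q1, q2, q3, q4, q5, -⟩
      exact ⟨⟨q1, q4⟩, ⟨q2, q5⟩, q3⟩
    · rintro ⟨⟨q1, q4⟩, ⟨q2, q5⟩, q3⟩
      exact ⟨q1, q2, q3, q4, q5,
        ((hmem _).1 (hadd _ ((hmem _).2 ⟨q1, q4⟩) _ ((hmem _).2 ⟨q2, q5⟩) q3)).2⟩

end Pool.Agent.Work.MP_9f8812_co.RD
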