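import Pool.Agent.Work.MP_9f8812_co.RD.Stmts

/-!
# Block RD, item Cp: the characteristic polynomial of the minor
-/

set_option autoImplicit false

namespace Pool.Agent.Work.MP_9f8812_co.RD

open Submodule Module
open Pool.Agent.WW (HasK5 Gen Pres VC Good tri)
open Pool.Agent.Work.MP_9f8812_co.LG

namespace ICp

/-- taking images is injective on the subsets of a set on which the map is injective -/
theorem image_inj {α β : Type} [DecidableEq β] {F G G' : Finset α} {g : α → β}
    (hg : ∀ x ∈ F, ∀ y ∈ F, g x = g y → x = y) (hG : G ⊆ F) (hG' : G' ⊆ F)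
    (h : G.image g = G'.image g) : G ⊆ G' := by
  intro x hx
  have h1 : g x ∈ G'.image g := h ▸ Finset.mem_image_of_mem g hx
  obtain ⟨y, hy, hxy⟩ := Finset.mem_image.mp h1
  have := hg y (hG' hy) x (hG hx) hxy
  exact this ▸ hy

end ICp

open Classical in
theorem pr_Cp (h : St_Rk) : St_Cp := by
  intro n ι _ inst v W _ _ _ F Y g σ lam hT hF
  have hinj : ∀ G ⊆ F, (G.image g).card = G.card := fun G hG =>
    Finset.card_image_of_injOn fun x hx y hy hxy => hT.inj x (hG hx) y (hG hy) hxy
  have htop : rkm v Y (F.image g) = finrank (ZMod 2) W := by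
    rw [h n ι v W F Y g σ hT F (Finset.Subset.refl F), hF, finrank_top]
  unfold chm q
  rw [htop]
  symm
  refine Finset.sum_nbij (fun G : Finset W => G.image g) ?_ ?_ ?_ ?_
  · intro G hG
    exact Finset.mem_powerset.mpr (Finset.image_subset_image (Finset.mem_powerset.mp hG))
  · intro G hG G' hG' hGG
    have h1 : G ⊆ F := Finset.mem_powerset.mp hG
    have h2 : G' ⊆ F := Finset.mem_powerset.mp hG'
    exact Finset.Subset.antisymm (ICp.image_inj hT.inj h1 h2 hGG)
      (ICp.image_inj hT.inj h2 h1 hGG.symm)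
  · intro A hA
    have h1 : A ⊆ F.image g := Finset.mem_powerset.mp hA
    obtain ⟨G, hG, hGA⟩ := Finset.subset_image_iff.mp h1
    exact ⟨G, Finset.mem_coe.mpr (Finset.mem_powerset.mpr hG), hGA⟩
  · intro G hG
    have h1 : G ⊆ F := Finset.mem_powerset.mp hG
    rw [hinj G h1, sup_bot_eq, h n ι v W F Y g σ hT G h1]

end Pool.Agent.Work.MP_9f8812_co.RD
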