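import Pool.Agent.Work.MP_9f8812_co.RD.Stmts

set_option autoImplicit false

namespace Pool.Agent.Work.MP_9f8812_co.RD

open Submodule Module
open Pool.Agent.WW (HasK5 Gen Pres VC Good tri)
open Pool.Agent.Work.MP_9f8812_co.LG

namespace IDel

theorem s_add_mul {V : Type} [AddCommGroup V] [Module (ZMod 2) V] {n : ℕ} {h : V} {s : ℕ → V}
    (hs : ∀ i, s (i + n) = s i + h) (i k : ℕ) : s (i + n * k) = s i + k • h := by
  induction k with
  | zero => simp
  | succ k ih =>
    have : i + n * (k + 1) = (i + n * k) + n := by ring
    rw [this, hs, ih, succ_nsmul, add_assoc]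

theorem nsmul_two_cases {V : Type} [AddCommGroup V] [Module (ZMod 2) V] (h : V) (k : ℕ) :
    k • h = 0 ∨ k • h = h := by
  induction k with
  | zero => left; simp
  | succ k ih =>
    rcases ih with ih | ih
    · right; rw [succ_nsmul, ih, zero_add]
    · left; rw [succ_nsmul, ih, ZModModule.add_self]

end IDel

theorem pr_Del : St_Del := by
  classical
  intro V _ _ _ n E hn hE
  obtain ⟨h, s, ⟨hs, hli, hfr⟩, hmem⟩ := hE
  let b := basisOfLinearIndependentOfCardEqFinrank hli (by simp [hfr])
  have hb : ∀ i, b i = (Fin.cons h (fun i : Fin n => s i) : Fin (n + 1) → V) i := fun i => by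
    simp [b]
  let i1 : Fin (n + 1) := Fin.succ ⟨1, by omega⟩
  let f := b.coord i1
  have hfb : ∀ i, f (b i) = if i = i1 then 1 else 0 := by
    intro i
    simp only [f, Basis.coord_apply, Basis.repr_self, Finsupp.single_apply]
  have hfh : f h = 0 := by
    have := hfb 0
    rw [hb 0] at this
    simpa [i1, Fin.ext_iff] using this
  have hfs : ∀ j, j < n → f (s j) = if j = 1 then 1 else 0 := by
    intro j hj
    have := hfb (Fin.succ ⟨j, hj⟩)
    rw [hb, Fin.cons_succ] at this
    simpa [i1, Fin.ext_iff] using this
  have hdec : ∀ i, s i = s (i % n) + (i / n) • h := by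
    intro i
    rw [← IDel.s_add_mul hs, Nat.mod_add_div]
  have hfs' : ∀ i, f (s i) = if i % n = 1 then 1 else 0 := by
    intro i
    rw [hdec i, map_add, map_nsmul, hfh, smul_zero, add_zero]
    exact hfs _ (Nat.mod_lt _ (by omega))
  refine ⟨f, ?_, ?_⟩
  · intro h0
    have := hfs 1 (by omega)
    rw [h0] at this
    simp at this
  · have hsub : {x ∈ (E : Set V) | f x ≠ 0} ⊆
        (({s 1, s 1 + h, s 0 + s 1, s 1 + s 2} : Finset V) : Set V) := by
      rintro v ⟨hv, hfv⟩
      rcases (hmem v).1 hv with rfl | ⟨i, rfl⟩ | ⟨i, rfl⟩
      · exact absurd hfh hfv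
      · rw [hfs'] at hfv
        have h1 : i % n = 1 := by
          by_contra hne
          simp [hne] at hfv
        have h2 := hdec i
        rw [h1] at h2
        rcases IDel.nsmul_two_cases h (i / n) with h3 | h3
        · rw [h3, add_zero] at h2; simp [h2]
        · rw [h3] at h2; simp [h2]
      · rw [map_add, hfs', hfs'] at hfv
        by_cases h1 : i % n = 1
        · have h2 := hdec i
          have h3 : s (i + 1) = s 2 + (i / n) • h := by
            rw [← IDel.s_add_mul hs]
            congr 1
            have := Nat.mod_add_div i n
            omega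
          rw [h1] at h2
          have h4 : s i + s (i + 1) = s 1 + s 2 := by
            rw [h2, h3]
            have : s 1 + (i / n) • h + (s 2 + (i / n) • h) =
              s 1 + s 2 + ((i / n) • h + (i / n) • h) := by abel
            rw [this, ZModModule.add_self, add_zero]
          simp [h4]
        · by_cases h1' : i % n = 0
          · have h2 := hdec i
            have h3 : s (i + 1) = s 1 + (i / n) • h := by
              rw [← IDel.s_add_mul hs]
              congr 1
              have := Nat.mod_add_div i n
              omega
            rw [h1'] at h2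
            have h4 : s i + s (i + 1) = s 0 + s 1 := by
              rw [h2, h3]
              have : s 0 + (i / n) • h + (s 1 + (i / n) • h) =
                s 0 + s 1 + ((i / n) • h + (i / n) • h) := by abel
              rw [this, ZModModule.add_self, add_zero]
            simp [h4]
          · exfalso
            apply hfv
            have h5 : (i + 1) % n ≠ 1 := by
              intro h6
              apply h1'
              rw [Nat.add_mod] at h6
              have hlt := Nat.mod_lt i (show 0 < n by omega)
              have h1n : 1 % n = 1 := Nat.mod_eq_of_lt (by omega)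
              rw [h1n] at h6
              by_cases h7 : i % n + 1 < n
              · rw [Nat.mod_eq_of_lt h7] at h6; omega
              · have h8 : i % n + 1 = n := by omega
                rw [h8, Nat.mod_self] at h6
                omega
            simp [h1, h5]
    calc supp E f ≤ ((({s 1, s 1 + h, s 0 + s 1, s 1 + s 2} : Finset V) : Set V)).ncard :=
          Set.ncard_le_ncard hsub (Finset.finite_toSet _)
      _ = ({s 1, s 1 + h, s 0 + s 1, s 1 + s 2} : Finset V).card := Set.ncard_coe_finset _
      _ ≤ 4 := Finset.card_le_four

end Pool.Agent.Work.MP_9f8812_co.RD
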