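import Pool.Agent.Work.MP_9f8812_co.RD.Stmts

/-!
# MP_9f8812_co, block RD, item F1: at most two distinct nonzero vectors are independent
-/

set_option autoImplicit false

namespace Pool.Agent.Work.MP_9f8812_co.RD

open Submodule Module

namespace IF1

variable {W : Type} [AddCommGroup W] [Module (ZMod 2) W]

theorem two_cases (s : ZMod 2) : s = 0 ∨ s = 1 := by
  revert s
  decide

theorem add_self (x : W) : x + x = 0 := by
  have h : ((1 : ZMod 2) + 1) • x = 0 := by
    have : (1 : ZMod 2) + 1 = 0 := by decide
    rw [this, zero_smul]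
  rwa [add_smul, one_smul] at h

theorem pair (x y : W) (hx : x ≠ 0) (hy : y ≠ 0) (hxy : x ≠ y) :
    finrank (ZMod 2) ↥(span (ZMod 2) ({x, y} : Set W)) = 2 := by
  have hli : LinearIndependent (ZMod 2) ![x, y] := by
    rw [LinearIndependent.pair_iff]
    intro s t h
    rcases two_cases s with rfl | rfl <;> rcases two_cases t with rfl | rfl
    · exact ⟨rfl, rfl⟩
    · rw [zero_smul, one_smul, zero_add] at h
      exact absurd h hy
    · rw [zero_smul, one_smul, add_zero] at h
      exact absurd h hx
    · rw [one_smul, one_smul] at h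
      exfalso
      apply hxy
      have h2 : x + y + y = x := by rw [add_assoc, add_self, add_zero]
      rw [h, zero_add] at h2
      exact h2.symm
  have h := finrank_span_eq_card hli
  rw [Fintype.card_fin] at h
  have hr : Set.range ![x, y] = ({x, y} : Set W) := by
    ext z
    constructor
    · rintro ⟨i, rfl⟩
      fin_cases i
      · exact Or.inl rfl
      · exact Or.inr rfl
    · rintro (rfl | rfl)
      · exact ⟨0, rfl⟩
      · exact ⟨1, rfl⟩
  rw [hr] at h
  exact h

end IF1

/-- item F1 -/
theorem pr_F1 : St_F1 := by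
  intro W _ _ F h0 G hG hc
  classical
  have hne : ∀ x ∈ G, x ≠ 0 := fun x hx h => h0 (h ▸ hG hx)
  rcases Nat.lt_or_ge G.card 1 with h | h
  · have h1 : G.card = 0 := by omega
    rw [h1]
    rw [Finset.card_eq_zero] at h1
    rw [h1, Finset.coe_empty, span_empty, finrank_bot]
  · rcases Nat.lt_or_ge G.card 2 with h' | h'
    · have h1 : G.card = 1 := by omega
      rw [h1]
      rw [Finset.card_eq_one] at h1
      obtain ⟨x, hx⟩ := h1
      have hx0 : x ≠ 0 := hne x (by rw [hx]; exact Finset.mem_singleton_self x)
      rw [hx, Finset.coe_singleton]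
      exact finrank_span_singleton hx0
    · have h1 : G.card = 2 := le_antisymm hc h'
      rw [h1]
      rw [Finset.card_eq_two] at h1
      obtain ⟨x, y, hxy, hG2⟩ := h1
      have hx0 : x ≠ 0 := hne x (by rw [hG2]; exact Finset.mem_insert_self _ _)
      have hy0 : y ≠ 0 := hne y (by
        rw [hG2]
        exact Finset.mem_insert_of_mem (Finset.mem_singleton_self _))
      rw [hG2, Finset.coe_insert, Finset.coe_singleton]
      exact IF1.pair x y hx0 hy0 hxy

end Pool.Agent.Work.MP_9f8812_co.RD
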