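import Pool.Agent.Work.MP_9f8812_co.RD.Stmts

/-!
# Block RD, item F2: vertical 4-connectivity
-/

set_option autoImplicit false

namespace Pool.Agent.Work.MP_9f8812_co.RD

open Submodule Module
open Pool.Agent.WW (HasK5 Gen Pres VC Good tri)
open Pool.Agent.Work.MP_9f8812_co.LG

theorem pr_F2 : St_F2 := by
  intro W _ _ _ _ F hF G hG h1 h2
  set S : Submodule (ZMod 2) W := span (ZMod 2) (G : Set W) with hS
  set H : Submodule (ZMod 2) W := span (ZMod 2) ((F \ G : Finset W) : Set W) with hH
  have hmem : ∀ x ∈ F, x ∉ G → x ∈ H := by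
    intro x hx hxG
    exact subset_span (by simp [hx, hxG])
  have hle : ∀ L : Submodule (ZMod 2) W, (∀ x ∈ F, x ∈ L) → L = ⊤ := by
    intro L hL
    rw [eq_top_iff, ← hF.span]
    exact span_le.2 fun x hx => hL x hx
  have ha : ∃ a ∈ (F : Set W), a ∉ H := by
    by_contra hcon
    push Not at hcon
    have h3 := hle H fun x hx => hcon x hx
    rw [h3, finrank_top] at h2
    exact lt_irrefl _ h2
  have hsub : span (ZMod 2) ((F : Set W) \ (H : Set W)) ≤ S := by
    refine span_mono fun x hx => ?_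
    by_contra hxG
    exact hx.2 (hmem x hx.1 hxG)
  have hb : ∃ b ∈ (F : Set W), b ∈ H ∧ b ∉ span (ZMod 2) ((F : Set W) \ (H : Set W)) := by
    by_contra hcon
    push Not at hcon
    have h3 := hle (span (ZMod 2) ((F : Set W) \ (H : Set W))) fun x hx => by
      by_cases hxH : x ∈ H
      · exact hcon x hx hxH
      · exact subset_span ⟨hx, hxH⟩
    rw [h3, top_le_iff] at hsub
    rw [hsub, finrank_top] at h1
    exact lt_irrefl _ h1
  have h3 := hF.vc H ha hb
  have h4 : finrank (ZMod 2) ↥(span (ZMod 2) ((F : Set W) \ (H : Set W)) ⊓ H) ≤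
      finrank (ZMod 2) ↥(S ⊓ H) := Submodule.finrank_mono (inf_le_inf_right H hsub)
  have h5 : S ⊔ H = ⊤ := by
    refine hle _ fun x hx => ?_
    by_cases hxG : x ∈ G
    · exact mem_sup_left (subset_span hxG)
    · exact mem_sup_right (hmem x hx hxG)
  have h6 := Submodule.finrank_sup_add_finrank_inf_eq S H
  rw [h5, finrank_top] at h6
  omega

end Pool.Agent.Work.MP_9f8812_co.RD
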