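import Pool.Agent.Work.MP_9f8812_co.RD.Stmts

/-!
# Block RD, item F3: planes of the minor
-/

set_option autoImplicit false

namespace Pool.Agent.Work.MP_9f8812_co.RD

open Submodule Module
open Pool.Agent.WW (HasK5 Gen Pres VC Good tri)
open Pool.Agent.Work.MP_9f8812_co.LG

namespace IF3

/-- a subspace is contained in a subspace of each larger dimension -/
theorem ext (W : Type) [AddCommGroup W] [Module (ZMod 2) W] [FiniteDimensional (ZMod 2) W]
    (S : Submodule (ZMod 2) W) (k : ℕ) (hk : finrank (ZMod 2) S + k ≤ finrank (ZMod 2) W) :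
    ∃ U : Submodule (ZMod 2) W, S ≤ U ∧ finrank (ZMod 2) U = finrank (ZMod 2) S + k := by
  induction k with
  | zero => exact ⟨S, le_rfl, rfl⟩
  | succ k ih =>
    obtain ⟨U, hSU, hU⟩ := ih (by omega)
    have hne : U ≠ ⊤ := by
      intro h
      rw [h, finrank_top] at hU
      omega
    obtain ⟨x, -, hx⟩ := SetLike.exists_of_lt (lt_top_iff_ne_top.2 hne)
    have hx0 : x ≠ 0 := fun h => hx (h ▸ U.zero_mem)
    have hinf : U ⊓ span (ZMod 2) {x} = ⊥ := by
      rw [eq_bot_iff]
      rintro y ⟨hy1, hy2⟩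
      obtain ⟨c, rfl⟩ := mem_span_singleton.1 hy2
      by_cases hc : c = 0
      · rw [hc, zero_smul]
        exact Submodule.zero_mem _
      · exfalso
        apply hx
        have h1 := U.smul_mem c⁻¹ hy1
        rwa [smul_smul, inv_mul_cancel₀ hc, one_smul] at h1
    have h1 := Submodule.finrank_sup_add_finrank_inf_eq U (span (ZMod 2) {x})
    rw [hinf, finrank_bot, finrank_span_singleton hx0, hU] at h1
    exact ⟨U ⊔ span (ZMod 2) {x}, hSU.trans le_sup_left, by omega⟩

end IF3

theorem pr_F3 : St_F3 := by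
  intro W _ _ _ F hF h3 G hG hd
  obtain ⟨U, hSU, hU⟩ := IF3.ext W (span (ZMod 2) (G : Set W))
    (3 - finrank (ZMod 2) ↥(span (ZMod 2) (G : Set W))) (by omega)
  have hU3 : finrank (ZMod 2) U = 3 := by omega
  have h1 := hF U hU3
  have h2 : (G : Set W) ⊆ (F : Set W) ∩ (U : Set W) := by
    intro x hx
    exact ⟨hG hx, hSU (subset_span hx)⟩
  have h4 := Set.ncard_le_ncard h2 (F.finite_toSet.subset Set.inter_subset_left)
  rw [Set.ncard_coe_finset] at h4
  exact h4.trans h1

end Pool.Agent.Work.MP_9f8812_co.RD
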