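import Pool.Agent.Work.MP_9f8812_co.RD.Stmts

/-!
# Item F4 of block RD: triangles
-/

set_option autoImplicit false

namespace Pool.Agent.Work.MP_9f8812_co.RD

open Submodule Module
open Pool.Agent.WW (HasK5 Gen Pres VC Good tri)
open Pool.Agent.Work.MP_9f8812_co.LG

namespace IF4

variable {W : Type} [AddCommGroup W] [Module (ZMod 2) W]

/-- three distinct nonzero vectors which span a plane add up to zero -/
theorem line (x y z : W) (hx : x ≠ 0) (hy : y ≠ 0) (hz : z ≠ 0) (hxy : x ≠ y) (hxz : z ≠ x)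
    (hyz : z ≠ y) (h : finrank (ZMod 2) ↥(span (ZMod 2) ({x, y, z} : Set W)) = 2) :
    x + y = z := by
  have hli : LinearIndependent (ZMod 2) ![x, y] := by
    rw [LinearIndependent.pair_iff]
    intro s t hst
    have h2 : ∀ a : ZMod 2, a = 0 ∨ a = 1 := by decide
    rcases h2 s with rfl | rfl <;> rcases h2 t with rfl | rfl
    · exact ⟨rfl, rfl⟩
    · exact absurd (by simpa using hst) hy
    · exact absurd (by simpa using hst) hx
    · exfalso
      apply hxy
      rw [one_smul, one_smul] at hst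
      calc x = x + (y + y) := by rw [ZModModule.add_self, add_zero]
        _ = (x + y) + y := by rw [add_assoc]
        _ = y := by rw [hst, zero_add]
  have h2 : finrank (ZMod 2) ↥(span (ZMod 2) ({x, y} : Set W)) = 2 := by
    have h3 := finrank_span_eq_card hli
    rw [Matrix.range_cons, Matrix.range_cons, Matrix.range_empty, Set.union_empty,
      Set.singleton_union, Fintype.card_fin] at h3
    exact h3
  have hle : span (ZMod 2) ({x, y} : Set W) ≤ span (ZMod 2) ({x, y, z} : Set W) := by
    apply span_mono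
    intro w hw
    rcases hw with hw | hw
    · exact Or.inl hw
    · exact Or.inr (Or.inl hw)
  have : FiniteDimensional (ZMod 2) ↥(span (ZMod 2) ({x, y, z} : Set W)) :=
    FiniteDimensional.span_of_finite (ZMod 2) (Set.toFinite _)
  have heq : span (ZMod 2) ({x, y} : Set W) = span (ZMod 2) ({x, y, z} : Set W) :=
    Submodule.eq_of_le_of_finrank_eq hle (by rw [h, h2])
  have hzm : z ∈ span (ZMod 2) ({x, y} : Set W) := by
    rw [heq]
    exact subset_span (Or.inr (Or.inr rfl))
  obtain ⟨a, b, hab⟩ := mem_span_pair.1 hzm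
  have h2 : ∀ a : ZMod 2, a = 0 ∨ a = 1 := by decide
  rcases h2 a with rfl | rfl <;> rcases h2 b with rfl | rfl
  · exact absurd (by simpa using hab.symm) hz
  · exact absurd (by simpa using hab.symm) hyz
  · exact absurd (by simpa using hab.symm) hxz
  · simpa using hab

variable [DecidableEq W]

theorem key (F G : Finset W) (h0 : (0 : W) ∉ F) (hGF : G ⊆ F) (hc : G.card = 3)
    (h : finrank (ZMod 2) ↥(span (ZMod 2) (G : Set W)) = 2) (a b : W) (ha : a ∈ G) (hb : b ∈ G)
    (hab : a ≠ b) : a + b ∈ G ∧ G = {a, b, a + b} := by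
  have hba : b ∈ G.erase a := Finset.mem_erase.2 ⟨hab.symm, hb⟩
  have h1 : ((G.erase a).erase b).card = 1 := by
    rw [Finset.card_erase_of_mem hba, Finset.card_erase_of_mem ha, hc]
  obtain ⟨c, hcc⟩ := Finset.card_eq_one.1 h1
  have hG : G = {a, b, c} := by
    rw [← Finset.insert_erase ha, ← Finset.insert_erase hba, hcc]
  have hcm : c ∈ (G.erase a).erase b := by
    rw [hcc]
    exact Finset.mem_singleton_self c
  obtain ⟨hcb, hcm2⟩ := Finset.mem_erase.1 hcm
  obtain ⟨hca, hcG⟩ := Finset.mem_erase.1 hcm2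
  have hne : ∀ x ∈ G, x ≠ 0 := by
    intro x hx hx0
    apply h0
    rw [← hx0]
    exact hGF hx
  have hG2 : (G : Set W) = {a, b, c} := by
    rw [hG]
    simp
  rw [hG2] at h
  have h2 := line a b c (hne a ha) (hne b hb) (hne c hcG) hab hca hcb h
  constructor
  · rw [h2]
    exact hcG
  · rw [h2]
    exact hG

end IF4

open IF4 in
/-- F4 -/
theorem pr_F4 : St_F4 := by
  intro W _ _ _ F h0
  set S := (F.powersetCard 3).filter fun G : Finset W =>
    finrank (ZMod 2) ↥(span (ZMod 2) (G : Set W)) = 2 with hS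
  have hmem : ∀ G ∈ S, G ⊆ F ∧ G.card = 3 ∧
      finrank (ZMod 2) ↥(span (ZMod 2) (G : Set W)) = 2 := by
    intro G hG
    rw [hS, Finset.mem_filter, Finset.mem_powersetCard] at hG
    exact ⟨hG.1.1, hG.1.2, hG.2⟩
  have hk : ∀ G ∈ S, ∀ p ∈ G.offDiag, p.1 + p.2 ∈ G ∧ G = {p.1, p.2, p.1 + p.2} := by
    intro G hG p hp
    obtain ⟨h1, h2, h3⟩ := hmem G hG
    obtain ⟨h4, h5, h6⟩ := Finset.mem_offDiag.1 hp
    exact key F G h0 h1 h2 h3 p.1 p.2 h4 h5 h6
  have hcard : (S.biUnion fun G => G.offDiag).card = S.card * 6 := by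
    rw [Finset.card_biUnion]
    · rw [Finset.sum_congr rfl (fun G hG => ?_), Finset.sum_const, smul_eq_mul]
      rw [Finset.offDiag_card, (hmem G hG).2.1]
    · intro G hG G' hG' hne
      show Disjoint G.offDiag G'.offDiag
      rw [Finset.disjoint_left]
      intro p hp hp'
      exact hne ((hk G hG p hp).2.trans (hk G' hG' p hp').2.symm)
  have hle : (S.biUnion fun G => G.offDiag).card ≤ tri F := by
    unfold tri
    apply Finset.card_le_card
    intro p hp
    obtain ⟨G, hG, hpG⟩ := Finset.mem_biUnion.1 hp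
    have h1 := (hmem G hG).1
    obtain ⟨h4, h5, -⟩ := Finset.mem_offDiag.1 hpG
    rw [Finset.mem_filter, Finset.mem_product]
    exact ⟨⟨h1 h4, h1 h5⟩, h1 (hk G hG p hpG).1⟩
  rw [hcard] at hle
  linarith

end Pool.Agent.Work.MP_9f8812_co.RD
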