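import Pool.Agent.Work.MP_9f8812_co.RD.Stmts

/-!
# Block RD, item F5: cocircuits
-/

set_option autoImplicit false

namespace Pool.Agent.Work.MP_9f8812_co.RD

open Submodule Module

theorem pr_F5 : St_F5 := by
  intro W _ _ _ _ lam F hF G hG hlt
  have hlt' : span (ZMod 2) ((F \ G : Finset W) : Set W) < ⊤ := by
    rw [lt_top_iff_ne_top]
    intro h
    rw [h, finrank_top] at hlt
    exact lt_irrefl _ hlt
  obtain ⟨f, hf, hle⟩ := Submodule.exists_le_ker_of_lt_top _ hlt'
  have h1 := hF f hf
  refine lt_of_lt_of_le h1 ?_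
  have h2 : supp F f ≤ G.card := by
    rw [supp, ← Set.ncard_coe_finset G]
    refine Set.ncard_le_ncard ?_ G.finite_toSet
    rintro x ⟨hx, hfx⟩
    by_contra hxG
    apply hfx
    have hx2 : x ∈ span (ZMod 2) ((F \ G : Finset W) : Set W) := by
      apply subset_span
      rw [Finset.coe_sdiff]
      exact ⟨hx, hxG⟩
    exact hle hx2
  exact_mod_cast h2

end Pool.Agent.Work.MP_9f8812_co.RD
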