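import Pool.Agent.Work.MP_9f8812_co.RD.Stmts

/-!
Block RD (MP_9f8812_co), item Low: the first terms of the sum over the possible kernels.
-/

set_option autoImplicit false

namespace Pool.Agent.Work.MP_9f8812_co.RD

open Submodule Module
open Pool.Agent.Work.MP_9f8812_co.LG

namespace ILow

variable {V : Type} [AddCommGroup V] [Module (ZMod 2) V]

theorem z2 (a : ZMod 2) : a = 0 ∨ a = 1 := by
  revert a
  decide

theorem add_self (x : V) : x + x = 0 := by
  have h : ((2 : ZMod 2)) • x = 0 := by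
    have h2 : (2 : ZMod 2) = 0 := by decide
    rw [h2, zero_smul]
  rwa [two_smul] at h

theorem add_ne {x y : V} (h : x ≠ y) : x + y ≠ 0 := by
  intro h1
  apply h
  have h2 := add_eq_zero_iff_eq_neg.1 h1
  have h3 := add_eq_zero_iff_eq_neg.1 (add_self y)
  rw [h2, ← h3]

theorem mem1 {x y : V} (h : y ∈ span (ZMod 2) ({x} : Set V)) : y = 0 ∨ y = x := by
  obtain ⟨a, rfl⟩ := mem_span_singleton.1 h
  rcases z2 a with rfl | rfl
  · left; rw [zero_smul]
  · right; rw [one_smul]

theorem mem2 {x y z : V} (h : z ∈ span (ZMod 2) ({x, y} : Set V)) :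
    z = 0 ∨ z = x ∨ z = y ∨ z = x + y := by
  obtain ⟨a, b, rfl⟩ := mem_span_pair.1 h
  rcases z2 a with rfl | rfl <;> rcases z2 b with rfl | rfl <;> simp

theorem fr2 {x y : V} (hx : x ≠ 0) (hy : y ≠ 0) (hxy : x ≠ y) :
    finrank (ZMod 2) ↥(span (ZMod 2) ({x, y} : Set V)) = 2 := by
  have hli : LinearIndependent (ZMod 2) ![x, y] := by
    rw [LinearIndependent.pair_iff]
    intro s t h
    rcases z2 s with rfl | rfl <;> rcases z2 t with rfl | rfl
    · exact ⟨rfl, rfl⟩
    · rw [zero_smul, one_smul, zero_add] at h; exact absurd h hy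
    · rw [zero_smul, one_smul, add_zero] at h; exact absurd h hx
    · rw [one_smul, one_smul] at h; exact absurd h (add_ne hxy)
  have h := finrank_span_eq_card hli
  have hr : Set.range ![x, y] = ({x, y} : Set V) := by
    simp [Matrix.range_cons, Matrix.range_empty, Set.pair_comm]
  rw [hr] at h
  rw [h]
  simp

theorem prod_nn {lam : ℝ} (hl : 5 ≤ lam) {m : ℕ} (hm : m ≤ 3) :
    0 ≤ ∏ i ∈ Finset.range m, (lam - 2 ^ i) := by
  refine Finset.prod_nonneg fun i hi => ?_
  have h1 : i ≤ 2 := by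
    have := Finset.mem_range.1 hi
    omega
  have h2 : (2 : ℝ) ^ i ≤ 2 ^ 2 := pow_le_pow_right₀ (by norm_num) h1
  have h3 : (2 : ℝ) ^ 2 = 4 := by norm_num
  linarith

theorem pt {lam : ℝ} (hl : 5 ≤ lam) {n : ℕ} (hn : n ≤ 5) (d : ℕ) :
    ((if d = 0 then (1 : ℝ) else 0) * (∏ i ∈ Finset.range n, (lam - 2 ^ i)) +
      (if d = 1 then (1 : ℝ) else 0) * (∏ i ∈ Finset.range (n - 1), (lam - 2 ^ i))) +
      (if d = 2 then (1 : ℝ) else 0) * (∏ i ∈ Finset.range (n - 2), (lam - 2 ^ i)) ≤
      ∏ i ∈ Finset.range (n - d), (lam - 2 ^ i) := by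
  rcases Nat.lt_or_ge d 3 with h | h
  · interval_cases d <;> simp
  · have h0 : ¬ d = 0 := by omega
    have h1 : ¬ d = 1 := by omega
    have h2 : ¬ d = 2 := by omega
    rw [if_neg h0, if_neg h1, if_neg h2]
    have h3 := prod_nn hl (m := n - d) (by omega)
    linarith

section
variable [FiniteDimensional (ZMod 2) V] [Fintype (Submodule (ZMod 2) V)] [Fintype V]
  [DecidableEq V]

open Classical in
theorem c0 (E : Finset V) (h0 : (0 : V) ∉ E) :
    ((Finset.univ.filter (fun K : Submodule (ZMod 2) V => ∀ x ∈ E, x ∉ K)).filter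
      (fun K : Submodule (ZMod 2) V => finrank (ZMod 2) ↥K = 0)).card = 1 := by
  rw [Finset.card_eq_one]
  refine ⟨⊥, ?_⟩
  ext K
  simp only [Finset.mem_filter, Finset.mem_univ, true_and, Finset.mem_singleton]
  constructor
  · rintro ⟨-, h⟩
    exact Submodule.finrank_eq_zero.1 h
  · rintro rfl
    refine ⟨fun x hx hx0 => ?_, finrank_bot _ _⟩
    rw [mem_bot] at hx0
    rw [hx0] at hx
    exact h0 hx

open Classical in
theorem c1 (E : Finset V) (h0 : (0 : V) ∉ E) :
    ((Finset.univ.filter (fun K : Submodule (ZMod 2) V => ∀ x ∈ E, x ∉ K)).filter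
      (fun K : Submodule (ZMod 2) V => finrank (ZMod 2) ↥K = 1)).card = a1 E := by
  unfold a1
  rw [Nat.card_eq_fintype_card, Fintype.card_subtype]
  symm
  refine Finset.card_bij (fun x _ => span (ZMod 2) ({x} : Set V)) ?_ ?_ ?_
  · intro x hx
    simp only [Finset.mem_filter, Finset.mem_univ, true_and] at hx ⊢
    refine ⟨fun y hy hy2 => ?_, finrank_span_singleton hx.1⟩
    rcases mem1 hy2 with rfl | rfl
    · exact h0 hy
    · exact hx.2 hy
  · intro x hx y hy h
    simp only [Finset.mem_filter, Finset.mem_univ, true_and] at hx hy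
    have h2 : x ∈ span (ZMod 2) ({y} : Set V) := by
      have h3 : x ∈ span (ZMod 2) ({x} : Set V) := mem_span_singleton_self x
      have h4 : span (ZMod 2) ({x} : Set V) = span (ZMod 2) ({y} : Set V) := h
      rwa [h4] at h3
    rcases mem1 h2 with h5 | h5
    · exact absurd h5 hx.1
    · exact h5
  · intro K hK
    simp only [Finset.mem_filter, Finset.mem_univ, true_and] at hK
    have hne : K ≠ ⊥ := by
      rintro rfl
      have := hK.2
      rw [finrank_bot] at this
      omega
    obtain ⟨x, hx, hx0⟩ := Submodule.exists_mem_ne_zero_of_ne_bot hne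
    refine ⟨x, ?_, ?_⟩
    · simp only [Finset.mem_filter, Finset.mem_univ, true_and]
      exact ⟨hx0, fun hxE => hK.1 x hxE hx⟩
    · refine Submodule.eq_of_le_of_finrank_eq ?_ ?_
      · rw [span_singleton_le_iff_mem]
        exact hx
      · rw [finrank_span_singleton hx0, hK.2]

open Classical in
theorem fib (K : Submodule (ZMod 2) V) (hK : finrank (ZMod 2) ↥K = 2) :
    (Finset.univ.filter (fun x : V => x ∈ K ∧ x ≠ 0)).card = 3 := by
  have h1 : Fintype.card ↥K = 2 ^ 2 := by
    have h := Module.card_eq_pow_finrank (K := ZMod 2) (V := ↥K)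
    rw [hK, ZMod.card] at h
    exact h
  have h2 : (Finset.univ.filter (fun x : V => x ∈ K)).card = 4 := by
    rw [← Fintype.card_subtype]
    have h3 : Fintype.card {x : V // x ∈ K} = Fintype.card ↥K := Fintype.card_congr (Equiv.refl _)
    rw [h3, h1]
    norm_num
  have h4 : Finset.univ.filter (fun x : V => x ∈ K ∧ x ≠ 0) =
      (Finset.univ.filter (fun x : V => x ∈ K)).erase 0 := by
    ext x
    simp only [Finset.mem_filter, Finset.mem_univ, true_and, Finset.mem_erase]
    tauto
  rw [h4, Finset.card_erase_of_mem, h2]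
  simp

open Classical in
theorem c2 (E : Finset V) (h0 : (0 : V) ∉ E) :
    ((Finset.univ.filter (fun K : Submodule (ZMod 2) V => ∀ x ∈ E, x ∉ K)).filter
      (fun K : Submodule (ZMod 2) V => finrank (ZMod 2) ↥K = 2)).card * 6 = a2 E := by
  unfold a2
  rw [Nat.card_eq_fintype_card, Fintype.card_subtype]
  symm
  rw [Finset.card_eq_sum_card_fiberwise (f := fun p : V × V => span (ZMod 2) ({p.1, p.2} : Set V))
    (t := (Finset.univ.filter (fun K : Submodule (ZMod 2) V => ∀ x ∈ E, x ∉ K)).filter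
      (fun K : Submodule (ZMod 2) V => finrank (ZMod 2) ↥K = 2))]
  · rw [Finset.sum_const_nat (m := 6)]
    intro K hK
    simp only [Finset.mem_filter, Finset.mem_univ, true_and] at hK
    have h1 : Finset.filter (fun p : V × V => span (ZMod 2) ({p.1, p.2} : Set V) = K)
        (Finset.univ.filter (fun p : V × V => p.1 ≠ 0 ∧ p.2 ≠ 0 ∧ p.1 ≠ p.2 ∧ p.1 ∉ E ∧ p.2 ∉ E ∧
          p.1 + p.2 ∉ E)) = (Finset.univ.filter (fun x : V => x ∈ K ∧ x ≠ 0)).offDiag := by
      ext ⟨x, y⟩
      simp only [Finset.mem_filter, Finset.mem_univ, true_and, Finset.mem_offDiag]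
      constructor
      · rintro ⟨⟨hx, hy, hxy, -, -, -⟩, hs⟩
        have hxK : x ∈ K := by
          rw [← hs]
          exact subset_span (by simp)
        have hyK : y ∈ K := by
          rw [← hs]
          exact subset_span (by simp)
        exact ⟨⟨hxK, hx⟩, ⟨hyK, hy⟩, hxy⟩
      · rintro ⟨⟨hxK, hx⟩, ⟨hyK, hy⟩, hxy⟩
        refine ⟨⟨hx, hy, hxy, fun h => hK.1 x h hxK, fun h => hK.1 y h hyK,
          fun h => hK.1 _ h (K.add_mem hxK hyK)⟩, ?_⟩
        refine Submodule.eq_of_le_of_finrank_eq ?_ ?_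
        · rw [span_le]
          intro z hz
          rcases hz with rfl | hz
          · exact hxK
          · rw [Set.mem_singleton_iff.1 hz]
            exact hyK
        · rw [fr2 hx hy hxy, hK.2]
    rw [h1, Finset.offDiag_card, fib K hK.2]
  · intro p hp
    simp only [Finset.coe_filter, Finset.mem_filter, Finset.mem_univ, true_and,
      Set.mem_ofPred_eq] at hp ⊢
    obtain ⟨hx, hy, hxy, h1, h2, h3⟩ := hp
    refine ⟨fun z hz hz2 => ?_, fr2 hx hy hxy⟩
    rcases mem2 hz2 with rfl | rfl | rfl | rfl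
    · exact h0 hz
    · exact h1 hz
    · exact h2 hz
    · exact h3 hz

end

end ILow

open ILow in
theorem pr_Low (hG : St_G1) : St_Low := by
  intro V _ _ _ lam E hl _ hn5 h0
  classical
  have : Finite V := Module.finite_of_finite (ZMod 2)
  have : Fintype V := Fintype.ofFinite V
  have : Fintype (Submodule (ZMod 2) V) := Fintype.ofFinite _
  rw [hG V lam E]
  set S := Finset.univ.filter (fun K : Submodule (ZMod 2) V => ∀ x ∈ E, x ∉ K) with hS
  have h1 : ((S.filter (fun K : Submodule (ZMod 2) V => finrank (ZMod 2) ↥K = 0)).card : ℝ) = 1 := by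
    have := c0 E h0
    rw [← hS] at this
    exact_mod_cast this
  have h2 : ((S.filter (fun K : Submodule (ZMod 2) V => finrank (ZMod 2) ↥K = 1)).card : ℝ) = a1 E := by
    have := c1 E h0
    rw [← hS] at this
    exact_mod_cast this
  have h3 : ((S.filter (fun K : Submodule (ZMod 2) V => finrank (ZMod 2) ↥K = 2)).card : ℝ) = (a2 E : ℝ) / 6 := by
    have := c2 E h0
    rw [← hS] at this
    have h4 : ((S.filter (fun K : Submodule (ZMod 2) V => finrank (ZMod 2) ↥K = 2)).card : ℝ) * 6 = (a2 E : ℝ) := by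
      exact_mod_cast this
    linarith
  have h5 := Finset.sum_le_sum (s := S) (fun K _ => pt hl hn5 (finrank (ZMod 2) ↥K))
  refine le_trans (le_of_eq ?_) h5
  rw [Finset.sum_add_distrib, Finset.sum_add_distrib, ← Finset.sum_mul, ← Finset.sum_mul,
    ← Finset.sum_mul, Finset.sum_boole, Finset.sum_boole, Finset.sum_boole, h1, h2, h3, one_mul]

end Pool.Agent.Work.MP_9f8812_co.RD
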