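import Pool.Agent.Work.MP_9f8812_co.RD.Stmts

/-!
# The class of all minors has the closure properties
-/

set_option autoImplicit false

namespace Pool.Agent.Work.MP_9f8812_co.RD

open Submodule Module
open Pool.Agent.WW (HasK5 Gen Pres VC Good tri)
open Pool.Agent.Work.MP_9f8812_co.LG

namespace IMO

variable {V : Type} [AddCommGroup V] [Module (ZMod 2) V]

theorem add_self' (x : V) : x + x = 0 := ZModModule.add_self x

theorem pres_self {E : Set V} {K : Submodule (ZMod 2) V} {x : V} (hx : x ∈ E) : Pres E K x :=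
  ⟨x, hx, by rw [add_self']; exact K.zero_mem⟩

theorem mn_sub (E : Set V) (S : Submodule (ZMod 2) V) :
    Mn E ({y | (y : V) ∈ E} : Set ↥S) := by
  refine ⟨⊥, S.subtype, ?_, ?_, ?_⟩
  · exact bot_le
  · intro w hw
    have h0 : (w : V) = 0 := (Submodule.mem_bot (ZMod 2)).1 hw
    exact Subtype.ext h0
  · intro y hy
    exact pres_self hy

theorem mn_sep (E : Set V) (S H K : Submodule (ZMod 2) V) (hg : Gen (E ∩ (H : Set V)) K)
    (hKH : K ≤ H) (hK : K ⊓ (S ⊓ H) = ⊥)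
    (hP : ∀ u ∈ S ⊓ H, u ≠ 0 → Pres (E ∩ (H : Set V)) K u) :
    Mn E ({y | (y : V) ∈ E ∨ ((y : V) ∈ H ∧ y ≠ 0)} : Set ↥S) := by
  refine ⟨K, S.subtype, ?_, ?_, ?_⟩
  · intro x hx
    have h1 := hg hx
    refine Submodule.span_mono ?_ h1
    rintro z ⟨⟨hz1, -⟩, hz3⟩
    exact ⟨hz1, hz3⟩
  · intro w hw
    have hwK : (w : V) ∈ K := hw
    have h1 : (w : V) ∈ K ⊓ (S ⊓ H) := ⟨hwK, w.2, hKH hwK⟩
    rw [hK] at h1
    have h0 : (w : V) = 0 := (Submodule.mem_bot (ZMod 2)).1 h1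
    exact Subtype.ext h0
  · rintro y (hy | ⟨hy, hy0⟩)
    · exact pres_self hy
    · have hne : (y : V) ≠ 0 := fun h => hy0 (Subtype.ext h)
      obtain ⟨x, ⟨hx, -⟩, hxK⟩ := hP (y : V) ⟨y.2, hy⟩ hne
      exact ⟨x, hx, hxK⟩

theorem mn_quo {W : Type} [AddCommGroup W] [Module (ZMod 2) W] (π : V →ₗ[ZMod 2] W)
    (E : Set V) (hπ : Function.Surjective π) (hg : Gen E (LinearMap.ker π)) :
    Mn E {w | w ≠ 0 ∧ ∃ x ∈ E, π x = w} := by
  obtain ⟨σ, hσ⟩ := LinearMap.exists_rightInverse_of_surjective π (LinearMap.range_eq_top.2 hπ)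
  have hσ' : ∀ w, π (σ w) = w := fun w => by
    have := LinearMap.congr_fun hσ w
    simpa using this
  refine ⟨LinearMap.ker π, σ, hg, ?_, ?_⟩
  · intro w hw
    have h1 := LinearMap.mem_ker.1 hw
    rw [hσ'] at h1
    exact h1
  · rintro w ⟨-, x, hx, rfl⟩
    refine ⟨x, hx, ?_⟩
    rw [LinearMap.mem_ker, map_add, hσ', add_self']

end IMO

theorem pr_MO (h : St_MT) : St_MO := by
  intro V0 _ _ E0
  refine ⟨?_, ?_, ?_, ?_⟩
  · rintro V _ _ E E' X ⟨hf, hX, K, σ, h1, h2, h3⟩ hE -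
    exact ⟨hf, hX, K, σ, h1, h2, fun y hy => h3 y (hE hy)⟩
  · rintro V W _ _ _ _ _ π E X hπ hg ⟨hf, hX, hM⟩
    refine ⟨Module.Finite.of_surjective π hπ, ?_, ?_⟩
    · rw [hX, Submodule.map_bot]
    · exact h V0 V W E0 E _ hM (IMO.mn_quo π E hπ hg)
  · rintro V _ _ _ S E X - ⟨hf, hX, hM⟩
    refine ⟨inferInstance, ?_, ?_⟩
    · rw [hX, eq_bot_iff]
      intro w hw
      have h0 : (w : V) = 0 := (Submodule.mem_bot (ZMod 2)).1 (Submodule.mem_comap.1 hw)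
      rw [Submodule.mem_bot]
      exact Subtype.ext h0
    · exact h V0 V ↥S E0 E _ hM (IMO.mn_sub E S)
  · rintro V _ _ _ E X S H ⟨hf, hX, hM⟩ - - - ⟨K, hg, hKH, hK, hP⟩
    exact ⟨⊥, inferInstance, rfl, h V0 V ↥S E0 E _ hM (IMO.mn_sep E S H K hg hKH hK hP)⟩

end Pool.Agent.Work.MP_9f8812_co.RD
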