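import Pool.Agent.Work.MP_9f8812_co.RD.Stmts

/-! Item MT of the block RD: minors of minors are minors. -/

set_option autoImplicit false

namespace Pool.Agent.Work.MP_9f8812_co.RD

open Submodule Module
open Pool.Agent.WW (HasK5 Gen Pres VC Good tri)
open Pool.Agent.Work.MP_9f8812_co.LG

namespace IMT

theorem add_self' {V : Type} [AddCommGroup V] [Module (ZMod 2) V] (x : V) : x + x = 0 :=
  ZModModule.add_self x

end IMT

open IMT

theorem pr_MT : St_MT := by
  intro V W U _ _ _ _ _ _ E F G hEF hFG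
  obtain ⟨K1, s1, hG1, hi1, hP1⟩ := hEF
  obtain ⟨K2, s2, hG2, hi2, hP2⟩ := hFG
  set K' : Submodule (ZMod 2) V := K1 ⊔ K2.map s1 with hK'
  have hKK' : K1 ≤ K' := le_sup_left
  have hmK' : ∀ y ∈ K2, s1 y ∈ K' := fun y hy =>
    (le_sup_right : K2.map s1 ≤ K') (mem_map_of_mem hy)
  refine ⟨K', s1.comp s2, ?_, ?_, ?_⟩
  · have h1 : K1 ≤ span (ZMod 2) (E ∩ K') :=
      hG1.trans (span_mono (Set.inter_subset_inter_right _ hKK'))
    refine sup_le h1 ?_
    refine (map_mono hG2).trans ?_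
    rw [map_span, span_le]
    rintro _ ⟨w, ⟨hwF, hwK⟩, rfl⟩
    obtain ⟨x, hx, hxw⟩ := hP1 w hwF
    have e : s1 w = x + (x + s1 w) := by
      rw [← add_assoc, add_self', zero_add]
    have e' : x = (x + s1 w) + s1 w := by
      rw [add_assoc, add_self', add_zero]
    have hxK' : x ∈ K' := by
      rw [e']
      exact add_mem (hKK' hxw) (hmK' _ hwK)
    rw [SetLike.mem_coe, e]
    exact add_mem (subset_span ⟨hx, hxK'⟩) (h1 hxw)
  · intro w hw
    change s1 (s2 w) ∈ K' at hw
    rw [hK', mem_sup] at hw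
    obtain ⟨k, hk, z, ⟨y, hy, rfl⟩, hz⟩ := hw
    have e : s1 (s2 w + y) = k := by
      rw [map_add, ← hz, add_assoc, add_self', add_zero]
    have h0 := hi1 (s2 w + y) (by rw [e]; exact hk)
    have h1 : s2 w = y := by
      have : s2 w + y + y = 0 + y := by rw [h0]
      rwa [add_assoc, add_self', add_zero, zero_add] at this
    exact hi2 w (by rw [h1]; exact hy)
  · intro y hy
    obtain ⟨x, hx, hxy⟩ := hP2 y hy
    obtain ⟨z, hz, hzx⟩ := hP1 x hx
    refine ⟨z, hz, ?_⟩
    have e : z + (s1.comp s2) y = (z + s1 x) + s1 (x + s2 y) := by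
      rw [map_add, LinearMap.comp_apply]
      calc z + s1 (s2 y) = z + s1 (s2 y) + (s1 x + s1 x) := by rw [add_self', add_zero]
        _ = _ := by abel
    rw [e]
    exact add_mem (hKK' hzx) (hmK' _ hxy)

end Pool.Agent.Work.MP_9f8812_co.RD
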