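import Pool.Agent.Work.MP_9f8812_co.RD.Stmts

/-!
# The structure of a smallest counterexample: positivity in rank four and five
-/

set_option autoImplicit false

namespace Pool.Agent.Work.MP_9f8812_co.RD

open Submodule Module
open Pool.Agent.Work.MP_9f8812_co.LG

theorem pr_P45 (h : St_Low) : St_P45 := by
  intro V _ _ _ lam E hlam h0 hcase
  rcases hcase with ⟨hr, h1, h2⟩ | ⟨hr, h1, h2⟩
  · have hL := h V lam E hlam (by omega) (by omega) h0
    rw [hr, h1, h2] at hL
    norm_num [Finset.prod_range_succ] at hL
    refine lt_of_lt_of_le ?_ hL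
    have e : (0 : ℝ) < (lam - 1) * (lam - 2) := mul_pos (by linarith) (by linarith)
    have e2 : (0 : ℝ) < lam ^ 2 - 9 * lam + 21 := by nlinarith [sq_nonneg (lam - 9 / 2)]
    have e3 := mul_pos e e2
    linarith
  · have hL := h V lam E hlam (by omega) (by omega) h0
    rw [hr, h1, h2] at hL
    norm_num [Finset.prod_range_succ] at hL
    refine lt_of_lt_of_le ?_ hL
    have e : (0 : ℝ) < (lam - 1) * (lam - 2) * (lam - 4) :=
      mul_pos (mul_pos (by linarith) (by linarith)) (by linarith)
    have e2 : (0 : ℝ) < (lam - 4) ^ 2 + 4 := by positivity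
    have e3 := mul_pos e e2
    linarith

end Pool.Agent.Work.MP_9f8812_co.RD
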