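import Pool.Agent.Work.MP_9f8812_co.RD.Stmts

/-! Item Q5 of the block RD (MP_9f8812_co), by helper92. -/

set_option autoImplicit false

namespace Pool.Agent.Work.MP_9f8812_co.RD

open Submodule Module
open Pool.Agent.Work.MP_9f8812_co.LG

namespace IQ5

theorem c1 : Fintype.card {c : Fin 5 → ZMod 2 // c ≠ 0 ∧ ¬ (wt c = 3 ∨ wt c = 4)} = 16 := by
  rw [Fintype.card_subtype]
  decide +kernel

theorem c2 : Fintype.card {p : (Fin 5 → ZMod 2) × (Fin 5 → ZMod 2) // p.1 ≠ 0 ∧ p.2 ≠ 0 ∧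
    p.1 ≠ p.2 ∧ ¬ (wt p.1 = 3 ∨ wt p.1 = 4) ∧ ¬ (wt p.2 = 3 ∨ wt p.2 = 4) ∧
    ¬ (wt (p.1 + p.2) = 3 ∨ wt (p.1 + p.2) = 4)} = 120 := by
  rw [Fintype.card_subtype]
  decide +kernel

end IQ5

theorem pr_Q5 : St_Q5 := by
  classical
  intro V _ _ _ E b hV hb hE
  have hcard : Fintype.card (Fin 5) = finrank (ZMod 2) V := by
    rw [hV, Fintype.card_fin]
  let B := basisOfLinearIndependentOfCardEqFinrank hb hcard
  let e : (Fin 5 → ZMod 2) ≃ₗ[ZMod 2] V := B.equivFun.symm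
  have he : ∀ c, e c = ∑ i, c i • b i := by
    intro c
    simp [e, B, Basis.equivFun_symm_apply]
  have hm : ∀ c, e c ∈ E ↔ (wt c = 3 ∨ wt c = 4) := by
    intro c
    rw [he]
    exact hE c
  have h0 : ∀ c, e c = 0 ↔ c = 0 := fun c => e.map_eq_zero_iff
  constructor
  · rw [← IQ5.c1, ← Nat.card_eq_fintype_card]
    refine (Nat.card_congr (Equiv.subtypeEquiv e.toEquiv ?_)).symm
    intro c
    show c ≠ 0 ∧ ¬ (wt c = 3 ∨ wt c = 4) ↔ e c ≠ 0 ∧ e c ∉ E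
    rw [hm, Ne, Ne, h0]
  · rw [← IQ5.c2, ← Nat.card_eq_fintype_card]
    refine (Nat.card_congr (Equiv.subtypeEquiv (Equiv.prodCongr e.toEquiv e.toEquiv) ?_)).symm
    rintro ⟨c, d⟩
    show c ≠ 0 ∧ d ≠ 0 ∧ c ≠ d ∧ ¬ (wt c = 3 ∨ wt c = 4) ∧ ¬ (wt d = 3 ∨ wt d = 4) ∧
      ¬ (wt (c + d) = 3 ∨ wt (c + d) = 4) ↔
      e c ≠ 0 ∧ e d ≠ 0 ∧ e c ≠ e d ∧ e c ∉ E ∧ e d ∉ E ∧ e c + e d ∉ E
    have h1 : e c = e d ↔ c = d := e.injective.eq_iff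
    rw [← map_add, hm, hm, hm]
    simp only [ne_eq, h0, h1]

end Pool.Agent.Work.MP_9f8812_co.RD
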