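import Pool.Agent.Work.MP_9f8812_co.RD.Stmts

/-!
# Item Rk: the rank of a minor
-/

set_option autoImplicit false

namespace Pool.Agent.Work.MP_9f8812_co.RD

open Submodule Module
open Pool.Agent.WW (HasK5 Gen Pres VC Good tri)
open Pool.Agent.Work.MP_9f8812_co.LG

/-- Rk. -/
theorem pr_Rk : St_Rk := by
  intro n ι _ _ v W _ _ _ F Y g σ hTr G hG
  set K : Submodule (ZMod 2) (Fin n → ZMod 2) := span (ZMod 2) (v '' (Y : Set ι)) with hK
  have h2 : ∀ a b : Fin n → ZMod 2, a = b + (a + b) := by
    intro a b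
    funext i
    simp only [Pi.add_apply]
    generalize a i = x
    generalize b i = y
    revert x y
    decide
  have hS : span (ZMod 2) (v '' ((G.image g ∪ Y : Finset ι) : Set ι)) =
      (span (ZMod 2) (G : Set W)).map σ ⊔ K := by
    rw [Finset.coe_union, Set.image_union, span_union, Finset.coe_image]
    apply le_antisymm
    · refine sup_le ?_ le_sup_right
      rw [span_le]
      rintro _ ⟨_, ⟨x, hx, rfl⟩, rfl⟩
      rw [h2 (v (g x)) (σ x)]
      refine add_mem (mem_sup_left ?_) (mem_sup_right (hTr.cong x (hG hx)))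
      exact mem_map_of_mem (subset_span hx)
    · refine sup_le ?_ le_sup_right
      rw [map_span, span_le]
      rintro _ ⟨x, hx, rfl⟩
      rw [h2 (σ x) (v (g x)), add_comm (σ x) (v (g x))]
      refine add_mem (mem_sup_left ?_) (mem_sup_right (hTr.cong x (hG hx)))
      exact subset_span ⟨g x, ⟨x, hx, rfl⟩, rfl⟩
  have hinj : Function.Injective σ := by
    rw [injective_iff_map_eq_zero]
    intro w hw
    exact hTr.ker w (by rw [hw]; exact zero_mem _)
  have hinf : (span (ZMod 2) (G : Set W)).map σ ⊓ K = ⊥ := by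
    rw [eq_bot_iff]
    rintro _ ⟨⟨w, -, rfl⟩, hw⟩
    rw [hTr.ker w hw, map_zero]
    exact zero_mem _
  have h3 := Submodule.finrank_sup_add_finrank_inf_eq ((span (ZMod 2) (G : Set W)).map σ) K
  rw [hinf, finrank_bot, add_zero] at h3
  have h4 : finrank (ZMod 2) ↥((span (ZMod 2) (G : Set W)).map σ) =
      finrank (ZMod 2) ↥(span (ZMod 2) (G : Set W)) :=
    (LinearEquiv.finrank_eq (Submodule.equivMapOfInjective σ hinj _)).symm
  unfold rkm rk
  rw [hS, h3, h4]
  exact Nat.add_sub_cancel _ _

end Pool.Agent.Work.MP_9f8812_co.RD
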