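import Pool.Agent.Work.MP_9f8812_co.RD.Stmts

/-!
# Item Tp: transport of the properties
-/

set_option autoImplicit false

namespace Pool.Agent.Work.MP_9f8812_co.RD

open Submodule Module
open Pool.Agent.WW (HasK5 Gen Pres VC Good tri)
open Pool.Agent.Work.MP_9f8812_co.LG

namespace ITp

section

variable {W ι : Type} [DecidableEq W] [DecidableEq ι] {F : Finset W} {g : W → ι}

theorem image_pre {A : Finset ι} (hA : A ⊆ F.image g) :
    (F.filter fun x => g x ∈ A).image g = A := by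
  ext i
  simp only [Finset.mem_image, Finset.mem_filter]
  constructor
  · rintro ⟨x, ⟨-, hx⟩, rfl⟩
    exact hx
  · intro hi
    obtain ⟨x, hx, rfl⟩ := Finset.mem_image.1 (hA hi)
    exact ⟨x, ⟨hx, hi⟩, rfl⟩

theorem card_im (hinj : ∀ x ∈ F, ∀ y ∈ F, g x = g y → x = y) {G : Finset W} (hG : G ⊆ F) :
    (G.image g).card = G.card :=
  Finset.card_image_of_injOn fun x hx y hy h => hinj x (hG hx) y (hG hy) h

theorem sdiff_im (hinj : ∀ x ∈ F, ∀ y ∈ F, g x = g y → x = y) {G : Finset W} (hG : G ⊆ F) :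
    (F \ G).image g = F.image g \ G.image g := by
  ext i
  simp only [Finset.mem_image, Finset.mem_sdiff]
  constructor
  · rintro ⟨x, ⟨hx, hxG⟩, rfl⟩
    refine ⟨⟨x, hx, rfl⟩, ?_⟩
    rintro ⟨y, hy, hyx⟩
    exact hxG (hinj y (hG hy) x hx hyx ▸ hy)
  · rintro ⟨⟨x, hx, rfl⟩, h⟩
    exact ⟨x, ⟨hx, fun hxG => h ⟨x, hxG, rfl⟩⟩, rfl⟩

end

end ITp

theorem pr_Tp (h : St_Rk) : St_Tp := by
  intro n ι _ _ v W _ _ _ _ F Y g σ lam hT hsp hF
  have hinj := hT.inj
  have hr : ∀ G ⊆ F, rkm v Y (G.image g) = finrank (ZMod 2) ↥(span (ZMod 2) (G : Set W)) :=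
    h n ι v W F Y g σ hT
  have hrT : rkm v Y (F.image g) = finrank (ZMod 2) W := by
    rw [hr F (Finset.Subset.refl F), hsp, finrank_top]
  have hcT : (F.image g).card = F.card := ITp.card_im hinj (Finset.Subset.refl F)
  have hex : ∀ A ⊆ F.image g, ∃ G ⊆ F, A = G.image g ∧ G.card = A.card ∧
      F.image g \ A = (F \ G).image g := by
    intro A hA
    have hG : (F.filter fun x => g x ∈ A) ⊆ F := Finset.filter_subset _ _
    refine ⟨F.filter fun x => g x ∈ A, hG, (ITp.image_pre hA).symm, ?_, ?_⟩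
    · rw [← ITp.card_im hinj hG, ITp.image_pre hA]
    · rw [ITp.sdiff_im hinj hG, ITp.image_pre hA]
  refine ⟨?_, ?_, ?_, ?_, ?_, ?_, ?_, ?_⟩
  · intro A hA hc
    obtain ⟨G, hG, rfl, hGc, -⟩ := hex A hA
    rw [hr G hG, ← hGc]
    exact hF.simple G hG (hGc.le.trans hc)
  · intro A hA h1 h2
    obtain ⟨G, hG, rfl, hGc, hd⟩ := hex A hA
    rw [hrT] at h1 h2 ⊢
    rw [hd, hr _ Finset.sdiff_subset] at h2 ⊢
    rw [hr G hG] at h1 ⊢
    exact hF.vertical G hG h1 h2
  · rw [hrT]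
    exact hF.rank
  · rw [hrT, hcT]
    exact hF.sparse
  · intro A hA h1
    obtain ⟨G, hG, rfl, hGc, -⟩ := hex A hA
    rw [hr G hG] at h1
    rw [← hGc]
    exact hF.planes G hG h1
  · rw [hcT]
    refine le_trans (Nat.add_le_add_right ?_ 4) hF.triangles
    have hsub : ((F.image g).powersetCard 3).filter (fun A => rkm v Y A = 2) ⊆
        ((F.powersetCard 3).filter fun G : Finset W =>
          finrank (ZMod 2) ↥(span (ZMod 2) (G : Set W)) = 2).image (fun G => G.image g) := by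
      intro A hA
      rw [Finset.mem_filter, Finset.mem_powersetCard] at hA
      obtain ⟨⟨hA1, hA2⟩, hA3⟩ := hA
      obtain ⟨G, hG, hAG, hGc, -⟩ := hex A hA1
      rw [Finset.mem_image]
      refine ⟨G, ?_, hAG.symm⟩
      rw [Finset.mem_filter, Finset.mem_powersetCard]
      refine ⟨⟨hG, hGc.trans hA2⟩, ?_⟩
      rw [← hr G hG, ← hAG]
      exact hA3
    exact (Finset.card_le_card hsub).trans Finset.card_image_le
  · intro A hA h1
    obtain ⟨G, hG, rfl, hGc, hd⟩ := hex A hA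
    rw [hrT, hd, hr _ Finset.sdiff_subset] at h1
    rw [← hGc]
    exact hF.cocircuits G hG h1
  · intro h5
    rw [hrT, hcT]
    exact hF.corank h5

end Pool.Agent.Work.MP_9f8812_co.RD
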