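import Pool.Agent.Work.MP_9f8812_co.RD.Stmts

/-!
# Item Tr: translation of a minor to a family of vectors
-/

set_option autoImplicit false

namespace Pool.Agent.Work.MP_9f8812_co.RD

open Submodule Module
open Pool.Agent.WW (HasK5 Gen Pres VC Good tri)
open Pool.Agent.Work.MP_9f8812_co.LG

namespace ITr

theorem image_eq {n : ℕ} {ι : Type} [Fintype ι] [DecidableEq ι] (v : ι → (Fin n → ZMod 2))
    (K : Submodule (ZMod 2) (Fin n → ZMod 2)) (Y : Finset ι) (hY : ∀ i, i ∈ Y ↔ v i ∈ K) :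
    v '' (Y : Set ι) = Set.range v ∩ (K : Set (Fin n → ZMod 2)) := by
  ext x
  constructor
  · rintro ⟨i, hi, rfl⟩
    exact ⟨⟨i, rfl⟩, (hY i).1 (Finset.mem_coe.1 hi)⟩
  · rintro ⟨⟨i, rfl⟩, hi⟩
    exact ⟨i, Finset.mem_coe.2 ((hY i).2 hi), rfl⟩

end ITr

theorem pr_Tr : St_Tr := by
  classical
  intro n ι _ _ v W _ _ F hF h0 hM
  obtain ⟨K, σ, hG, hK, hP⟩ := hM
  obtain ⟨y0, hy0⟩ := hF
  obtain ⟨x0, ⟨i0, -⟩, -⟩ := hP y0 (Finset.mem_coe.2 hy0)
  have hY : ∀ i, i ∈ Finset.univ.filter (fun i => v i ∈ K) ↔ v i ∈ K := by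
    intro i
    simp
  have him := ITr.image_eq v K (Finset.univ.filter (fun i => v i ∈ K)) hY
  have hspan : span (ZMod 2) (v '' ((Finset.univ.filter (fun i => v i ∈ K) : Finset ι) : Set ι)) =
      K := by
    rw [him]
    refine le_antisymm ?_ hG
    rw [span_le]
    exact Set.inter_subset_right
  have hch : ∀ x : W, ∃ i : ι, x ∈ F → v i + σ x ∈ K := by
    intro x
    by_cases hx : x ∈ F
    · obtain ⟨z, ⟨i, rfl⟩, hz⟩ := hP x (Finset.mem_coe.2 hx)
      exact ⟨i, fun _ => hz⟩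
    · exact ⟨i0, fun h => absurd h hx⟩
  choose g hg using hch
  refine ⟨Finset.univ.filter (fun i => v i ∈ K), g, σ, ?_, ?_, ?_, ?_⟩
  · intro x hx y hy hxy
    have h1 := hg x hx
    have h2 := hg y hy
    rw [hxy] at h1
    have h3 := K.sub_mem h1 h2
    rw [add_sub_add_left_eq_sub, ← map_sub] at h3
    exact sub_eq_zero.1 (hK _ h3)
  · intro x hx hmem
    have h1 := (hY _).1 hmem
    have h3 := K.sub_mem (hg x hx) h1
    rw [add_sub_cancel_left] at h3
    exact h0 (by rw [← hK _ h3]; exact hx)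
  · intro x hx
    rw [hspan]
    exact hg x hx
  · intro w hw
    rw [hspan] at hw
    exact hK w hw

end Pool.Agent.Work.MP_9f8812_co.RD
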