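import Pool.Agent.Work.MP_9f8812_co.RD.Core
import Pool.Agent.Work.MP_9f8812_co.RD.I_A4
import Pool.Agent.Work.MP_9f8812_co.RD.I_Cp
import Pool.Agent.Work.MP_9f8812_co.RD.I_Del
import Pool.Agent.Work.MP_9f8812_co.RD.I_F1
import Pool.Agent.Work.MP_9f8812_co.RD.I_F2
import Pool.Agent.Work.MP_9f8812_co.RD.I_F3
import Pool.Agent.Work.MP_9f8812_co.RD.I_F4
import Pool.Agent.Work.MP_9f8812_co.RD.I_F5
import Pool.Agent.Work.MP_9f8812_co.RD.I_G1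
import Pool.Agent.Work.MP_9f8812_co.RD.I_Low
import Pool.Agent.Work.MP_9f8812_co.RD.I_MO
import Pool.Agent.Work.MP_9f8812_co.RD.I_MT
import Pool.Agent.Work.MP_9f8812_co.RD.I_P45
import Pool.Agent.Work.MP_9f8812_co.RD.I_Q5
import Pool.Agent.Work.MP_9f8812_co.RD.I_Rk
import Pool.Agent.Work.MP_9f8812_co.RD.I_Tp
import Pool.Agent.Work.MP_9f8812_co.RD.I_Tr

/-!
# The structure of a smallest counterexample: assembly
-/

set_option autoImplicit false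

namespace Pool.Agent.Work.MP_9f8812_co.RD

open Submodule Module
open Pool.Agent.WW
open Pool.Agent.Work.MP_9f8812_co.LG

/-- Theorem RED -/
theorem red_all (n : ℕ) (ι : Type) [Fintype ι] [DecidableEq ι] (v : ι → (Fin n → ZMod 2))
    (h0 : ∀ i, v i ≠ 0) (hK : ¬ HasK5 (Set.range v)) (lam : ℝ) (h5 : 5 ≤ lam)
    (hle : chm v lam Finset.univ ∅ ≤ 0) :
    ∃ T Y : Finset ι, Disjoint T Y ∧ chm v lam T Y ≤ 0 ∧ Reduced v lam T Y ∧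
      3 * rkm v Y T + 7 * ⌊lam⌋₊ ≤ 3 * T.card + 8 ∧ T.card + 1 ≤ 3 * rkm v Y T ∧
      lam < (rkm v Y T : ℝ) :=
  red pr_Del pr_A4 pr_Q5 (pr_P45 (pr_Low (pr_G1 LG.pr_Ev LG.pr_Pid LG.pr_Cnt))) (pr_MO pr_MT)
    pr_F1 pr_F2 pr_F3 pr_F4 pr_F5 pr_Tr pr_Rk (pr_Cp pr_Rk) (pr_Tp pr_Rk)
    (LG.pr_Fam LG.pr_Ev LG.pr_Pid LG.pr_Cnt) n ι v h0 hK lam h5 hle

end Pool.Agent.Work.MP_9f8812_co.RD
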