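import Pool.Agent.Work.MP_9f8812_co.RD.R5

/-!
# The structure of a smallest counterexample: weights on the sets of rank five

For every set of rank five without `M(K5)` with positive integer weights such that every functional
has weight at least six, the total weight is at least `14`: linear programming certificates.
-/

set_option autoImplicit false

namespace Pool.Agent.Work.MP_9f8812_co.RD.ICW

open Pool.Agent.WW

/-- the multiplier of the point `x` -/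
def mul (l : List (ℕ × ℕ)) (x : ℕ) : ℕ := (l.map fun p => if parC (p.1 &&& x) then p.2 else 0).sum

/-- the points of a mask -/
def pts (M : ℕ) : List ℕ := (List.range 32).filter fun n => M.testBit n

/-- the certificate is correct -/
def chk (M q : ℕ) (l : List (ℕ × ℕ)) : Bool :=
  (l.all fun p => decide (p.1 < 32 ∧ p.1 ≠ 0)) && ((pts M).all fun x => decide (mul l x ≤ q)) &&
    decide (13 * q < 6 * (l.map fun p => p.2).sum + ((pts M).map fun x => q - mul l x).sum)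

/-- the certificates -/
def certs : List (ℕ × ℕ × List (ℕ × ℕ)) := [
  (65814, 1, [(1, 1), (2, 1), (4, 1), (8, 1), (16, 1)]),
  (2147549462, 1, [(6, 1), (9, 1), (16, 1)]),
  (98582, 2, [(3, 1), (5, 1), (6, 1), (8, 2), (16, 2)]),
  (65942, 1, [(3, 1), (4, 1), (8, 1), (16, 1)]),
  (65822, 2, [(1, 1), (2, 1), (3, 1), (4, 2), (8, 2), (16, 2)]),
  (69918, 2, [(1, 1), (2, 1), (3, 1), (4, 1), (8, 1), (12, 1), (16, 2)]),
  (134283670, 2, [(3, 2), (4, 2), (8, 1), (16, 1), (24, 1)]),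
  (16843158, 2, [(3, 2), (4, 2), (8, 1), (16, 1), (24, 1)]),
  (67990, 1, [(3, 1), (4, 1), (8, 1), (16, 1)]),
  (65950, 1, [(3, 1), (4, 1), (8, 1), (16, 1)]),
  (66454, 2, [(2, 1), (4, 1), (6, 1), (8, 2), (16, 2)]),
  (2147549590, 2, [(3, 1), (5, 1), (6, 1), (8, 1), (16, 1), (24, 1)]),
  (2147549470, 1, [(3, 1), (12, 1), (16, 1)]),
  (65982, 2, [(2, 1), (3, 1), (4, 1), (5, 1), (8, 2), (16, 2)]),
  (2165142, 1, [(7, 1), (8, 1), (16, 1)]),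
  (16843670, 2, [(2, 1), (4, 1), (6, 1), (8, 1), (16, 1), (24, 1)]),
  (200990, 2, [(2, 2), (4, 1), (8, 1), (12, 1), (16, 2)]),
  (2167070, 1, [(2, 1), (8, 1), (16, 1)]),
  (67998, 1, [(3, 1), (4, 1), (8, 1), (16, 1)]),
  (134283678, 2, [(3, 2), (4, 2), (8, 1), (16, 1), (24, 1)]),
  (68022, 2, [(3, 1), (4, 1), (7, 1), (8, 2), (16, 2)]),
  (134284182, 1, [(3, 1), (4, 1), (16, 1)]),
  (134285718, 2, [(3, 2), (4, 2), (8, 1), (16, 1), (24, 1)]),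
  (69950, 2, [(2, 2), (4, 1), (8, 1), (12, 1), (16, 2)]),
  (134283702, 2, [(3, 1), (4, 1), (10, 1), (13, 1), (16, 2)]),
  (134291862, 2, [(3, 1), (4, 1), (9, 1), (14, 1), (16, 2)]),
  (76182, 3, [(2, 1), (3, 1), (4, 1), (5, 1), (8, 1), (9, 1), (14, 1), (16, 3)]),
  (592278, 1, [(3, 1), (4, 1), (8, 1), (16, 1)]),
  (92566, 1, [(7, 1), (8, 1), (16, 1)]),
  (136389014, 2, [(7, 1), (10, 1), (13, 1), (16, 2)]),
  (68534, 2, [(2, 1), (3, 1), (4, 1), (8, 1), (13, 1), (16, 2)]),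
  (134308246, 4, [(3, 1), (4, 1), (7, 1), (9, 1), (10, 1), (13, 1), (14, 1), (16, 4)]),
  (134291870, 2, [(3, 1), (4, 1), (9, 1), (14, 1), (16, 2)]),
  (536938910, 4, [(2, 1), (5, 1), (7, 1), (9, 1), (11, 1), (12, 1), (14, 1), (16, 4)]),
  (69275934, 2, [(1, 1), (2, 1), (4, 1), (8, 1), (19, 1), (28, 1)]),
  (592286, 1, [(3, 1), (4, 1), (8, 1), (16, 1)]),
  (76190, 4, [(2, 1), (3, 1), (4, 1), (5, 1), (7, 1), (8, 2), (9, 1), (14, 1), (16, 4)]),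
  (4395294, 2, [(1, 1), (2, 1), (8, 2), (16, 1), (19, 1)]),
  (66046, 4, [(1, 1), (2, 1), (3, 1), (4, 1), (5, 1), (6, 1), (7, 1), (8, 4), (16, 4)]),
  (134293910, 2, [(3, 1), (4, 1), (9, 1), (14, 1), (16, 2)]),
  (2165206, 1, [(7, 1), (8, 1), (16, 1)]),
  (35719574, 1, [(2, 1), (13, 1), (16, 1)]),
  (2167102, 1, [(2, 1), (8, 1), (16, 1)]),
  (16845718, 1, [(3, 1), (4, 1), (16, 1)]),
  (66494, 2, [(2, 1), (4, 1), (6, 1), (8, 2), (16, 2)]),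
  (82366, 2, [(1, 1), (6, 1), (7, 1), (8, 2), (16, 2)]),
  (18942358, 4, [(2, 1), (3, 1), (4, 1), (5, 1), (7, 1), (8, 2), (16, 2), (25, 1), (30, 1)]),
  (2165654, 1, [(2, 1), (13, 1), (16, 1)]),
  (16843198, 2, [(2, 1), (3, 1), (4, 1), (5, 1), (8, 1), (16, 1), (24, 1)]),
  (2173334, 1, [(7, 1), (8, 1), (16, 1)]),
  (1073807806, 2, [(1, 1), (6, 1), (7, 1), (8, 1), (16, 1), (24, 1)]),
  (201022, 2, [(2, 2), (4, 1), (8, 1), (12, 1), (16, 2)]),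
  (2165150, 1, [(7, 1), (8, 1), (16, 1)]),
  (33620414, 2, [(2, 1), (4, 1), (6, 1), (8, 1), (16, 1), (24, 1)]),
  (592310, 2, [(3, 1), (4, 1), (7, 1), (8, 2), (16, 2)]),
  (17105814, 2, [(3, 1), (4, 2), (8, 1), (16, 1), (27, 1)]),
  (16843678, 1, [(3, 1), (4, 1), (16, 1)]),
  (17105846, 2, [(2, 1), (4, 1), (5, 1), (8, 1), (16, 1), (27, 1)]),
  (4276670, 2, [(1, 1), (6, 1), (7, 1), (8, 2), (16, 2)]),
  (2183203222, 2, [(6, 1), (10, 1), (13, 1), (16, 1), (17, 1)]),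
  (35719582, 1, [(4, 1), (8, 1), (19, 1)]),
  (35719638, 6, [(2, 3), (6, 1), (7, 1), (8, 1), (9, 1), (13, 3), (16, 4), (17, 1), (30, 1)]),
  (134424982, 2, [(4, 1), (10, 1), (14, 1), (16, 2)]),
  (2165214, 1, [(7, 1), (8, 1), (16, 1)]),
  (33620478, 2, [(2, 1), (4, 1), (6, 1), (8, 1), (16, 1), (24, 1)]),
  (71504158, 2, [(1, 1), (4, 1), (8, 1), (14, 1), (16, 1), (19, 1)]),
  (1117110, 2, [(2, 1), (3, 1), (8, 1), (9, 1), (16, 2)]),
  (2173342, 1, [(7, 1), (8, 1), (16, 1)]),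
  (4262838, 2, [(6, 1), (7, 1), (8, 1), (9, 1), (16, 2)]),
  (536947102, 4, [(2, 1), (5, 1), (7, 1), (9, 1), (11, 1), (12, 1), (14, 1), (16, 4)]),
  (101302, 4, [(2, 1), (3, 1), (4, 1), (5, 1), (6, 1), (8, 1), (9, 1), (10, 1), (13, 1), (16, 4)]),
  (592822, 1, [(4, 1), (8, 1), (16, 1)]),
  (138486174, 4, [(3, 1), (4, 1), (7, 1), (8, 2), (9, 1), (14, 1), (16, 2), (18, 1), (21, 1)]),
  (68598, 1, [(4, 1), (8, 1), (16, 1)]),
  (35727766, 1, [(2, 1), (13, 1), (16, 1)]),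
  (68542, 2, [(2, 1), (3, 1), (4, 1), (8, 1), (13, 1), (16, 2)]),
  (136391062, 2, [(7, 1), (10, 1), (13, 1), (16, 2)]),
  (4657438, 2, [(1, 1), (4, 1), (8, 1), (12, 1), (18, 1), (19, 1)]),
  (136389046, 2, [(7, 1), (10, 1), (13, 1), (16, 2)]),
  (616854, 1, [(7, 1), (8, 1), (16, 1)]),
  (199606, 1, [(4, 1), (8, 1), (16, 1)]),
  (1210130838, 2, [(7, 1), (10, 1), (13, 1), (16, 2)]),
  (92574, 1, [(7, 1), (8, 1), (16, 1)]),
  (136389022, 2, [(3, 1), (7, 1), (8, 1), (16, 1), (28, 1)]),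
  (8455102, 1, [(6, 1), (8, 1), (16, 1)]),
  (16976790, 2, [(3, 1), (4, 1), (6, 1), (8, 1), (16, 1), (25, 1)]),
  (134816158, 2, [(3, 1), (4, 1), (7, 1), (16, 2)]),
  (134308254, 2, [(3, 1), (4, 1), (7, 1), (16, 2)]),
  (223638, 4, [(2, 1), (4, 1), (6, 1), (8, 1), (10, 1), (12, 1), (14, 1), (16, 4)]),
  (134291934, 2, [(3, 1), (4, 1), (9, 1), (14, 1), (16, 2)]),
  (592318, 2, [(3, 1), (4, 1), (7, 1), (8, 2), (16, 2)]),
  (2147552182, 2, [(5, 1), (6, 1), (9, 1), (10, 1), (16, 2)]),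
  (66558, 2, [(2, 1), (4, 1), (6, 1), (8, 2), (16, 2)]),
  (134291902, 4, [(3, 1), (4, 1), (7, 2), (8, 1), (9, 1), (14, 1), (16, 3), (24, 1)]),
  (134293918, 2, [(3, 1), (4, 1), (9, 1), (14, 1), (16, 2)]),
  (2216759582, 2, [(5, 1), (10, 1), (15, 1), (16, 2)]),
  (2167166, 1, [(2, 1), (8, 1), (16, 1)]),
  (134422942, 6, [(2, 1), (3, 1), (4, 4), (8, 1), (9, 1), (14, 2), (16, 4), (27, 2)]),
  (69275966, 4, [(1, 1), (2, 1), (4, 1), (5, 1), (8, 1), (10, 1), (15, 1), (16, 2), (19, 1), (28, 1)]),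
  (16843262, 4, [(1, 1), (2, 1), (3, 1), (4, 1), (5, 1), (6, 1), (7, 1), (8, 2), (16, 2), (24, 2)]),
  (69407006, 2, [(1, 1), (2, 1), (4, 1), (8, 1), (19, 1), (28, 1)]),
  (4919582, 2, [(1, 1), (4, 1), (8, 1), (12, 1), (18, 1), (19, 1)]),
  (600478, 1, [(7, 1), (8, 1), (16, 1)]),
  (616862, 1, [(7, 1), (8, 1), (16, 1)]),
  (1210130870, 2, [(7, 1), (10, 1), (13, 1), (16, 2)]),
  (136389054, 2, [(7, 2), (8, 1), (16, 1), (24, 1)]),
  (33623030, 2, [(2, 1), (6, 1), (9, 1), (13, 1), (16, 2)]),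
  (4295606, 2, [(6, 1), (8, 1), (9, 1), (16, 2)]),
  (4263862, 2, [(4, 1), (8, 2), (16, 1), (20, 1)]),
  (1149878, 2, [(2, 1), (3, 1), (8, 1), (9, 1), (16, 2)]),
  (1118134, 2, [(2, 1), (8, 1), (10, 1), (16, 2)]),
  (35744150, 1, [(2, 1), (13, 1), (16, 1)]),
  (71766302, 2, [(1, 1), (4, 1), (8, 1), (12, 1), (18, 1), (19, 1)]),
  (1210132886, 2, [(7, 1), (10, 1), (13, 1), (16, 2)]),
  (68225974, 2, [(1, 1), (10, 1), (11, 1), (16, 2)]),
  (1117118, 2, [(2, 1), (3, 1), (8, 1), (9, 1), (16, 2)]),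
  (71504222, 2, [(1, 1), (4, 1), (8, 1), (14, 1), (16, 1), (19, 1)]),
  (537471390, 2, [(7, 1), (11, 1), (12, 1), (16, 2)]),
  (134426006, 2, [(4, 1), (10, 1), (14, 1), (16, 2)]),
  (2183203230, 3, [(3, 1), (4, 1), (6, 1), (8, 1), (17, 1), (19, 1), (20, 1)]),
  (536963486, 2, [(7, 1), (11, 1), (12, 1), (16, 2)]),
  (21053886, 2, [(1, 1), (6, 1), (7, 1), (8, 1), (16, 1), (24, 1)]),
  (101310, 2, [(2, 1), (3, 1), (4, 1), (5, 1), (16, 2)]),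
  (71512350, 2, [(1, 1), (12, 1), (14, 1), (16, 1), (19, 1)]),
  (17122230, 2, [(1, 1), (4, 1), (5, 1), (16, 2)]),
  (68606, 1, [(4, 1), (8, 1), (16, 1)]),
  (35719646, 4, [(4, 3), (8, 3), (16, 1), (17, 1), (19, 1), (30, 1)]),
  (52496854, 2, [(2, 1), (4, 1), (8, 1), (16, 1), (30, 1)]),
  (2173854, 2, [(2, 1), (7, 1), (8, 1), (13, 1), (16, 2)]),
  (37831102, 2, [(6, 2), (8, 1), (16, 1), (24, 1)]),
  (35850654, 1, [(4, 1), (8, 1), (19, 1)]),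
  (35720662, 2, [(4, 1), (8, 1), (13, 1), (16, 1), (17, 1)]),
  (35720150, 4, [(2, 3), (8, 1), (9, 1), (13, 1), (16, 3), (30, 1)]),
  (592830, 1, [(4, 1), (8, 1), (16, 1)]),
  (17105910, 2, [(2, 1), (4, 1), (6, 1), (8, 2)]),
  (17107894, 2, [(1, 1), (4, 1), (5, 1), (16, 2)]),
  (4276734, 2, [(1, 1), (6, 1), (7, 1), (8, 2), (16, 2)]),
  (17105854, 2, [(2, 1), (4, 1), (5, 1), (8, 1), (16, 1), (27, 1)]),
  (36243870, 1, [(4, 1), (8, 1), (19, 1)]),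
  (2165246, 1, [(7, 1), (8, 1), (16, 1)]),
  (102828502, 4, [(4, 2), (8, 3), (16, 1), (19, 2), (24, 1)]),
  (134424990, 2, [(4, 1), (10, 1), (14, 1), (16, 2)]),
  (2218987806, 2, [(1, 1), (12, 2), (18, 1), (19, 1)]),
  (134425014, 2, [(4, 1), (10, 1), (14, 1), (16, 2)]),
  (134441366, 2, [(4, 1), (10, 1), (14, 1), (16, 2)]),
  (19073942, 2, [(2, 1), (3, 1), (4, 1), (8, 1), (13, 1)]),
  (2165726, 2, [(2, 1), (7, 1), (8, 1), (13, 1), (16, 2)]),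
  (136522134, 2, [(7, 1), (8, 1), (14, 1), (16, 1), (17, 1)]),
  (4277182, 1, [(6, 1), (8, 1), (16, 1)]),
  (2296286, 2, [(4, 1), (7, 1), (8, 2), (16, 1), (19, 1)]),
  (2189726, 1, [(7, 1), (8, 1), (16, 1)]),
  (35727774, 4, [(2, 3), (4, 1), (8, 1), (13, 1), (16, 3), (19, 1)]),
  (2689502, 1, [(7, 1), (8, 1), (16, 1)]),
  (69622, 1, [(4, 1), (8, 1), (16, 1)]),
  (136391070, 2, [(7, 2), (8, 1), (16, 1), (24, 1)]),
  (4266934, 2, [(1, 1), (8, 1), (9, 1), (16, 2)]),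
  (33620990, 2, [(2, 1), (4, 1), (6, 1), (8, 1), (16, 1), (24, 1)]),
  (155263390, 2, [(7, 2), (8, 1), (16, 1), (24, 1)]),
  (18942430, 2, [(7, 2), (8, 1), (16, 1), (24, 1)]),
  (33621502, 2, [(4, 2), (8, 1), (16, 1), (24, 1)]),
  (17105918, 2, [(4, 2), (8, 1), (16, 1), (24, 1)]),
  (1210132894, 2, [(7, 1), (10, 1), (13, 1), (16, 2)]),
  (17895350, 2, [(1, 1), (2, 1), (3, 1), (16, 2)]),
  (1150902, 2, [(3, 1), (9, 1), (10, 1), (16, 2)]),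
  (105058654, 1, [(1, 1), (4, 1)]),
  (84231094, 2, [(1, 1), (4, 1), (5, 1), (16, 2)]),
  (52505046, 1, [(2, 1), (16, 1)]),
  (1280950, 2, [(2, 1), (8, 1), (10, 1), (16, 2)]),
  (1379262, 2, [(4, 1), (8, 2), (16, 1), (20, 1)]),
  (1117182, 2, [(2, 1), (3, 1), (8, 1), (9, 1), (16, 2)]),
  (21041078, 2, [(1, 1), (4, 1), (8, 1), (16, 1), (29, 1)]),
  (4426678, 4, [(6, 2), (8, 2), (9, 1), (10, 1), (16, 3), (19, 1)]),
  (673259966, 2, [(2, 1), (5, 1), (7, 1), (24, 2)]),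
  (4263870, 2, [(4, 1), (8, 2), (16, 1), (20, 1)]),
  (35744158, 6, [(2, 3), (4, 1), (7, 1), (8, 1), (11, 1), (13, 3), (16, 4), (19, 1), (28, 1)]),
  (4296630, 1, [(8, 1), (16, 1)]),
  (34671606, 1, [(2, 1), (16, 1)]),
  (136389118, 2, [(7, 2), (8, 1), (16, 1), (24, 1)]),
  (747934, 2, [(4, 1), (8, 1), (12, 1), (16, 2)]),
  (1210149270, 2, [(7, 1), (10, 1), (13, 1), (16, 2)]),
  (2190238, 2, [(2, 1), (7, 1), (8, 1), (13, 1), (16, 2)]),
  (33627126, 2, [(2, 1), (6, 1), (9, 1), (13, 1), (16, 2)]),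
  (1210130878, 2, [(7, 2), (8, 1), (16, 1), (24, 1)]),
  (153166270, 2, [(2, 1), (5, 1), (7, 1), (24, 2)]),
  (33754102, 2, [(2, 1), (4, 1), (6, 1), (16, 2)]),
  (1094795710, 2, [(1, 1), (6, 1), (7, 1), (8, 1), (16, 1), (24, 1)]),
  (2714014, 1, [(7, 1), (8, 1), (16, 1)]),
  (33623038, 2, [(2, 1), (4, 1), (6, 1), (16, 2)]),
  (4295670, 2, [(6, 1), (8, 1), (9, 1), (16, 2)]),
  (136389566, 4, [(2, 1), (7, 2), (13, 2), (16, 3), (18, 1)]),
  (136391102, 2, [(7, 2), (8, 1), (16, 1), (24, 1)]),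
  (68357046, 4, [(2, 1), (4, 2), (8, 1), (10, 1), (16, 2), (29, 2)]),
  (1141967798, 2, [(1, 1), (10, 1), (11, 1), (16, 2)]),
  (616894, 1, [(7, 1), (8, 1), (16, 1)]),
  (1642422, 2, [(4, 1), (8, 2), (16, 1), (20, 1)]),
  (33624054, 2, [(2, 1), (4, 1), (6, 1), (16, 2)]),
  (34147318, 2, [(4, 2), (8, 1), (16, 1), (24, 1)]),
  (69630, 1, [(4, 1), (8, 1), (16, 1)]),
  (169943486, 2, [(2, 1), (5, 1), (7, 1), (24, 2)]),
  (1208167830, 4, [(4, 1), (10, 3), (14, 1), (16, 2), (21, 2)]),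
  (4309950, 1, [(6, 1), (8, 1), (16, 1)]),
  (72552798, 1, [(1, 1), (8, 1)]),
  (71766366, 2, [(1, 2), (4, 1), (8, 1), (12, 1)]),
  (36112798, 1, [(4, 1), (8, 1), (19, 1)]),
  (109502, 2, [(2, 1), (3, 1), (4, 1), (5, 1), (16, 2)]),
  (72290590, 2, [(1, 1), (4, 1), (8, 1), (12, 1), (18, 1), (19, 1)]),
  (1210263958, 2, [(7, 1), (8, 1), (10, 1), (16, 1), (21, 1)]),
  (35858846, 3, [(2, 2), (4, 1), (8, 1), (16, 2), (19, 1)]),
  (76614582, 2, [(5, 1), (10, 1), (11, 1), (16, 1), (20, 1)]),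
  (2183334302, 3, [(3, 1), (4, 1), (6, 1), (8, 1), (17, 1), (19, 1), (20, 1)]),
  (71404470, 6, [(4, 2), (5, 2), (6, 1), (8, 2), (9, 1), (16, 2), (18, 1), (19, 2), (29, 1)]),
  (34671550, 2, [(2, 1), (9, 1), (11, 1), (16, 2)]),
  (71506270, 2, [(1, 1), (4, 1), (8, 1), (14, 1), (16, 1), (19, 1)]),
  (304179606, 1, [(2, 1), (13, 1), (16, 1)]),
  (71512414, 4, [(1, 1), (4, 1), (8, 1), (14, 3), (16, 3), (19, 1)]),
  (36374942, 1, [(4, 1), (8, 1), (19, 1)]),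
  (539568542, 2, [(7, 1), (8, 1), (12, 1), (16, 1), (19, 1)]),
  (537094558, 2, [(2, 1), (12, 1), (14, 1), (16, 2)]),
  (68488118, 2, [(1, 1), (4, 1), (8, 1), (16, 1), (29, 1)]),
  (54608318, 2, [(6, 2), (8, 1), (16, 1), (24, 1)]),
  (199678, 1, [(4, 1), (8, 1), (16, 1)]),
  (1126238678, 2, [(2, 1), (7, 1), (13, 1), (16, 1), (24, 1)]),
  (345050038, 1, [(2, 1)]),
  (36637086, 1, [(4, 1), (8, 1), (19, 1)]),
  (616958, 1, [(7, 1), (8, 1), (16, 1)]),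
  (137438142, 1, [(2, 1)]),
  (6908318, 1, [(7, 1), (8, 1), (16, 1)]),
  (2714046, 1, [(7, 1), (8, 1), (16, 1)]),
  (3357747606, 1, [(10, 1)]),
  (1094796222, 2, [(1, 1), (6, 1), (7, 1), (16, 2)]),
  (17928118, 1, [(2, 1), (16, 1)]),
  (1210133406, 1, [(7, 1), (16, 1)]),
  (1379326, 1, [(8, 1), (16, 1)]),
  (84231158, 1, [(1, 1), (16, 1)]),
  (1510334, 1, [(8, 1), (16, 1)]),
  (1642486, 1, [(8, 1), (16, 1)]),
  (1210130942, 2, [(7, 2), (8, 1), (16, 1), (24, 1)]),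
  (286330806, 2, [(1, 1), (2, 1), (3, 1), (16, 2)]),
  (50660350, 2, [(4, 2), (8, 1), (16, 1), (24, 1)]),
  (1210131390, 1, [(7, 1), (16, 1)]),
  (105066846, 2, [(1, 1), (2, 1), (16, 1), (19, 1)]),
  (1210132958, 2, [(7, 2), (8, 1), (16, 1), (24, 1)]),
  (1210132926, 2, [(7, 1), (10, 1), (13, 1), (16, 2)]),
  (17895414, 1, [(1, 1), (16, 1)]),
  (17899446, 2, [(1, 1), (2, 1), (3, 1), (16, 2)]),
  (17106942, 2, [(1, 1), (4, 1), (5, 1), (16, 2)]),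
  (151323646, 2, [(4, 2), (8, 1), (16, 1), (24, 1)]),
  (21049270, 1, [(16, 1)]),
  (4688822, 4, [(4, 1), (6, 1), (8, 3), (9, 1), (16, 3), (19, 1)]),
  (125886, 1, [(16, 1)]),
  (71535542, 3, [(4, 1), (6, 1), (8, 1), (10, 1), (16, 1), (19, 1), (29, 1)]),
  (1118206, 1, [(8, 1), (16, 1)]),
  (4296694, 1, [(6, 1), (16, 1)]),
  (1094795774, 2, [(1, 1), (6, 1), (7, 1), (8, 1), (16, 1), (24, 1)]),
  (105320798, 1, [(1, 1), (4, 1)]),
  (17107966, 2, [(4, 2), (8, 1), (16, 1), (24, 1)]),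
  (4300726, 1, [(16, 1)]),
  (571542518, 1, [(2, 1), (16, 1)]),
  (747966, 2, [(4, 1), (8, 1), (12, 1), (16, 2)]),
  (12815286, 1, [(6, 1), (16, 1)]),
  (2190270, 2, [(2, 1), (7, 1), (8, 1), (13, 1), (16, 2)])]

theorem tab : ∀ M ∈ r5L, chk M 1 [] = true ∨ ∃ c ∈ certs, c.1 = M ∧ chk M c.2.1 c.2.2 = true := by
  decide +kernel

theorem sum_mul (l : List (ℕ × ℕ)) (w : ℕ → ℕ) (P : List ℕ) :
    (P.map fun x => mul l x * w x).sum =
      (l.map fun p => p.2 * (P.map fun x => if parC (p.1 &&& x) then w x else 0).sum).sum := by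
  induction l with
  | nil =>
    simp [mul]
  | cons p l ih =>
    have h : ∀ x, mul (p :: l) x = (if parC (p.1 &&& x) then p.2 else 0) + mul l x := by
      intro x
      simp [mul]
    simp only [h, add_mul, List.sum_map_add, ih, List.map_cons, List.sum_cons]
    congr 1
    rw [← List.sum_map_mul_left]
    congr 1
    refine List.map_congr_left fun x _ => ?_
    split_ifs <;> simp

theorem sound {M q : ℕ} {l : List (ℕ × ℕ)} (h : chk M q l = true) (w : ℕ → ℕ)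
    (h1 : ∀ x ∈ pts M, 1 ≤ w x)
    (h6 : ∀ g < 32, g ≠ 0 → 6 ≤ ((pts M).map fun x => if parC (g &&& x) then w x else 0).sum) :
    14 ≤ ((pts M).map w).sum := by
  unfold chk at h
  rw [Bool.and_eq_true, Bool.and_eq_true, List.all_eq_true, List.all_eq_true] at h
  obtain ⟨⟨hg, hx⟩, ht⟩ := h
  have ht := of_decide_eq_true ht
  have hx : ∀ x ∈ pts M, mul l x ≤ q := fun x hx' => of_decide_eq_true (hx x hx')
  have e1 : 6 * (l.map fun p => p.2).sum ≤ ((pts M).map fun x => mul l x * w x).sum := by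
    rw [sum_mul, ← List.sum_map_mul_left]
    refine List.sum_le_sum fun p hp => ?_
    have := of_decide_eq_true (hg p hp)
    rw [mul_comm]
    exact Nat.mul_le_mul_left _ (h6 p.1 this.1 this.2)
  have e2 : ((pts M).map fun x => q - mul l x).sum ≤
      ((pts M).map fun x => (q - mul l x) * w x).sum := by
    refine List.sum_le_sum fun x hx' => ?_
    exact Nat.le_mul_of_pos_right _ (h1 x hx')
  have e3 : ((pts M).map fun x => mul l x * w x).sum +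
      ((pts M).map fun x => (q - mul l x) * w x).sum = q * ((pts M).map w).sum := by
    rw [← List.sum_map_add, ← List.sum_map_mul_left]
    congr 1
    refine List.map_congr_left fun x hx' => ?_
    rw [← add_mul, Nat.add_sub_cancel' (hx x hx')]
  by_contra hc
  push Not at hc
  have e4 : q * ((pts M).map w).sum ≤ q * 13 := Nat.mul_le_mul_left _ (by omega)
  omega

/-- the total weight is at least `14` -/
theorem weight (M : ℕ) (hM : M ∈ r5L) (w : ℕ → ℕ) (h1 : ∀ x ∈ pts M, 1 ≤ w x)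
    (h6 : ∀ g < 32, g ≠ 0 → 6 ≤ ((pts M).map fun x => if parC (g &&& x) then w x else 0).sum) :
    14 ≤ ((pts M).map w).sum := by
  rcases tab M hM with h | ⟨c, _, rfl, h⟩
  · exact sound h w h1 h6
  · exact sound h w h1 h6

end Pool.Agent.Work.MP_9f8812_co.RD.ICW
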