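import Pool.Agent.Work.MP_9f8812_co.RD.CW
import Pool.Agent.Work.MP_9f8812_co.LG.Asm

/-!
# The structure of a smallest counterexample: the corank
-/

set_option autoImplicit false

namespace Pool.Agent.Work.MP_9f8812_co.RD

open Submodule Module
open Pool.Agent.WW

namespace ICW

/-- the functional with code `g` -/
theorem exists_par {U : Type} [AddCommGroup U] [Module (ZMod 2) U] [FiniteDimensional (ZMod 2) U]
    (hU : finrank (ZMod 2) U = 5) (b : Fin 5 → U) (hb : LinearIndependent (ZMod 2) b) (g : ℕ)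
    (hg : g < 32) (hg0 : g ≠ 0) : ∃ f : U →ₗ[ZMod 2] ZMod 2, f ≠ 0 ∧
      ∀ n < 32, f (comb b n) = if parC (g &&& n) then 1 else 0 := by
  have hspan : span (ZMod 2) (Set.range b) = ⊤ := by
    rw [eq_top_iff]
    intro v _
    obtain ⟨n, _, rfl⟩ := r5s_comb_surj hU hb v
    unfold comb
    refine sum_mem fun i _ => ?_
    split_ifs
    · exact subset_span ⟨i, rfl⟩
    · exact zero_mem _
  let B := Basis.mk hb hspan.ge
  have hB : ∀ i, B i = b i := fun i => by simp [B]
  let f : U →ₗ[ZMod 2] ZMod 2 := B.constr (ZMod 2)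
    (fun i => if g.testBit i then (1 : ZMod 2) else 0)
  have hfb : ∀ i, f (b i) = if g.testBit i then (1 : ZMod 2) else 0 := by
    intro i
    rw [← hB i]
    exact B.constr_basis _ _ i
  refine ⟨f, ?_, ?_⟩
  · intro h
    obtain ⟨i, hi⟩ := IR5.g_spec g hg hg0
    have := hfb i
    rw [h, if_pos hi] at this
    exact absurd this (by simp)
  · intro n hn
    rw [← IR5.par_spec g hg n hn]
    unfold comb
    rw [map_sum]
    refine Finset.sum_congr rfl fun i _ => ?_
    split_ifs with h1 h2
    · rw [hfb, if_pos h2]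
    · rw [hfb, if_neg h2]
    · exact map_zero f

end ICW

/-- a spanning set without `M(K5)` in rank `n ≥ 5` all of whose cocircuits have at least six
elements has at least `n + 9` elements -/
theorem corank9 (V : Type) [AddCommGroup V] [Module (ZMod 2) V] [FiniteDimensional (ZMod 2) V]
    (E : Finset V) (hn : 5 ≤ finrank (ZMod 2) V) (hs : span (ZMod 2) (E : Set V) = ⊤)
    (hK : ¬ HasK5 (E : Set V))
    (h6 : ∀ f : V →ₗ[ZMod 2] ZMod 2, f ≠ 0 → 6 ≤ supp E f) :
    finrank (ZMod 2) V + 9 ≤ E.card := by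
  classical
  -- a subspace of codimension five spanned by elements of `E`
  obtain ⟨C, K, hCE, hCK, hCc, hGen, hKd⟩ : ∃ (C : Finset V) (K : Submodule (ZMod 2) V), C ⊆ E ∧
      (∀ x ∈ C, x ∈ K) ∧ C.card = finrank (ZMod 2) V - 5 ∧ Gen (E : Set V) K ∧
      finrank (ZMod 2) K = finrank (ZMod 2) V - 5 := by
    obtain ⟨B, hBE, hBs, hBi⟩ := exists_linearIndependent (ZMod 2) (E : Set V)
    have hBf : B.Finite := E.finite_toSet.subset hBE
    obtain ⟨B', rfl⟩ := hBf.exists_finset_coe
    have hBi' : LinearIndepOn (ZMod 2) id (B' : Set V) := hBi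
    have hBc : B'.card = finrank (ZMod 2) V := by
      rw [← finrank_span_finset_eq_card hBi', hBs, hs, finrank_top]
    obtain ⟨C, hC, hCc⟩ := Finset.exists_subset_card_eq (s := B') (n := finrank (ZMod 2) V - 5)
      (by omega)
    have hCi : LinearIndepOn (ZMod 2) id (C : Set V) := hBi'.mono (by exact_mod_cast hC)
    refine ⟨C, span (ZMod 2) (C : Set V), fun x hx => by exact_mod_cast hBE (hC hx),
      fun x hx => subset_span hx, hCc, ?_, ?_⟩
    · unfold Gen
      refine span_mono fun x hx => ⟨hBE (hC hx), subset_span hx⟩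
    · rw [finrank_span_finset_eq_card hCi, hCc]
  set π := K.mkQ with hπ
  have hsurj : Function.Surjective π := K.mkQ_surjective
  have hker : LinearMap.ker π = K := K.ker_mkQ
  have hU : finrank (ZMod 2) (V ⧸ K) = 5 := by
    have := Submodule.finrank_quotient_add_finrank K
    omega
  set E' : Set (V ⧸ K) := {w | w ≠ 0 ∧ ∃ x ∈ (E : Set V), π x = w} with hE'
  have hs' : span (ZMod 2) E' = ⊤ := by
    rw [eq_top_iff, ← LinearMap.range_eq_top.2 hsurj, LinearMap.range_eq_map, ← hs, map_span,
      span_le]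
    rintro _ ⟨x, hx, rfl⟩
    by_cases h : π x = 0
    · rw [h]; exact zero_mem _
    · exact subset_span ⟨h, x, hx, rfl⟩
  have hK' : ¬ HasK5 E' := fun h =>
    hK (LG.pr_KQ V (V ⧸ K) π (E : Set V) hsurj (by rw [hker]; exact hGen) h)
  obtain ⟨M, hM, b, hb, hMb⟩ := claimR5 r5L r5_closed (V ⧸ K) E' hU (fun h => h.1 rfl) hs' hK'
  set w : ℕ → ℕ := fun n => (E.filter fun x => π x = comb b n).card with hw
  have hlt : ∀ n ∈ ICW.pts M, n < 32 ∧ M.testBit n = true := by
    intro n hn
    unfold ICW.pts at hn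
    rw [List.mem_filter, List.mem_range] at hn
    exact hn
  have h1 : ∀ n ∈ ICW.pts M, 1 ≤ w n := by
    intro n hn
    obtain ⟨hn1, hn2⟩ := hlt n hn
    obtain ⟨_, x, hx, hxn⟩ := (hMb n hn1).1 hn2
    exact Finset.card_pos.2 ⟨x, Finset.mem_filter.2 ⟨by exact_mod_cast hx, hxn⟩⟩
  have hnd : (ICW.pts M).Nodup := List.nodup_range.filter _
  have hsum : ∀ u : ℕ → ℕ, ((ICW.pts M).map u).sum = ∑ n ∈ (ICW.pts M).toFinset, u n := by
    intro u
    rw [List.sum_toFinset _ hnd]
  have hw6 : ∀ g < 32, g ≠ 0 →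
      6 ≤ ((ICW.pts M).map fun x => if parC (g &&& x) then w x else 0).sum := by
    intro g hg hg0
    obtain ⟨f, hf0, hf⟩ := ICW.exists_par hU b hb g hg hg0
    have hfπ : f ∘ₗ π ≠ 0 := by
      intro h
      apply hf0
      ext y
      have := congrArg (fun φ : V →ₗ[ZMod 2] ZMod 2 => φ y) h
      simpa [hπ] using this
    refine (h6 _ hfπ).trans ?_
    unfold supp
    have hsub : {x ∈ (E : Set V) | (f ∘ₗ π) x ≠ 0} ⊆
        (((ICW.pts M).toFinset.filter (fun n => parC (g &&& n) = true)).biUnion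
          (fun n => E.filter fun x => π x = comb b n) : Finset V) := by
      rintro x ⟨hx, hfx⟩
      obtain ⟨n, hn, hxn⟩ := r5s_comb_surj hU hb (π x)
      rw [LinearMap.comp_apply, ← hxn, hf n hn] at hfx
      have hp : parC (g &&& n) = true := by
        by_contra hh
        rw [if_neg hh] at hfx
        exact hfx rfl
      have hne : π x ≠ 0 := by
        intro h0
        rw [h0] at hxn
        have := hf n hn
        rw [hxn, map_zero, if_pos hp] at this
        exact absurd this (by simp)
      have hnM : M.testBit n = true := (hMb n hn).2 (by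
        rw [hxn]
        exact ⟨hne, x, hx, rfl⟩)
      rw [Finset.mem_coe, Finset.mem_biUnion]
      refine ⟨n, Finset.mem_filter.2 ⟨?_, hp⟩, Finset.mem_filter.2 ⟨by exact_mod_cast hx, hxn.symm⟩⟩
      rw [List.mem_toFinset]
      unfold ICW.pts
      rw [List.mem_filter, List.mem_range]
      exact ⟨hn, hnM⟩
    refine (Set.ncard_le_ncard hsub (Finset.finite_toSet _)).trans ?_
    rw [Set.ncard_coe_finset]
    refine Finset.card_biUnion_le.trans ?_
    rw [hsum, Finset.sum_filter]
  have h14 := ICW.weight M hM w h1 hw6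
  rw [hsum] at h14
  change 14 ≤ ∑ n ∈ (ICW.pts M).toFinset, (E.filter fun x => π x = comb b n).card at h14
  have hdis : (((ICW.pts M).toFinset : Finset ℕ) : Set ℕ).PairwiseDisjoint
      (fun n => E.filter fun x => π x = comb b n) := by
    intro m hm n hn hmn
    rw [Function.onFun, Finset.disjoint_left]
    intro x hx hx'
    apply hmn
    have e1 := (Finset.mem_filter.1 hx).2
    have e2 := (Finset.mem_filter.1 hx').2
    rw [Finset.mem_coe, List.mem_toFinset] at hm hn
    exact r5s_comb_inj hb (by have := (hlt m hm).1; omega) (by have := (hlt n hn).1; omega)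
      (e1.symm.trans e2)
  have hcard := Finset.card_biUnion hdis
  have hfin : ((ICW.pts M).toFinset.biUnion fun n => E.filter fun x => π x = comb b n) ⊆
      E \ C := by
    intro x hx
    rw [Finset.mem_biUnion] at hx
    obtain ⟨n, hn, hx⟩ := hx
    rw [List.mem_toFinset] at hn
    obtain ⟨hn1, hn2⟩ := hlt n hn
    obtain ⟨hxE, hxn⟩ := Finset.mem_filter.1 hx
    refine Finset.mem_sdiff.2 ⟨hxE, fun hxC => ?_⟩
    have h0 : π x = 0 := by
      rw [hπ, Submodule.mkQ_apply, Submodule.Quotient.mk_eq_zero]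
      exact hCK x hxC
    exact ((hMb n hn1).1 hn2).1 (hxn ▸ h0)
  have h2 := Finset.card_le_card hfin
  rw [hcard, Finset.card_sdiff_of_subset hCE, hCc] at h2
  omega

end Pool.Agent.Work.MP_9f8812_co.RD
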