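import Pool.Agent.Work.MP_9f8812_co.RD.Stmts
import Pool.Agent.Work.MP_a8f287_co.C3.Main5

/-!
# The structure of a smallest counterexample: rank at least six
-/

set_option autoImplicit false

namespace Pool.Agent.Work.MP_9f8812_co.RD

open Submodule Module
open Pool.Agent.WW

/-- a good set of rank at least six has a functional with support at most four, or no plane with
six elements and at most `|E| - 4` triangles -/
theorem rank6 (hDel : St_Del) (V : Type) [AddCommGroup V] [Module (ZMod 2) V]
    [FiniteDimensional (ZMod 2) V] [DecidableEq V] (E : Finset V) (hg : Good (E : Set V))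
    (h6 : 6 ≤ finrank (ZMod 2) V) :
    (∃ f : V →ₗ[ZMod 2] ZMod 2, f ≠ 0 ∧ supp E f ≤ 4) ∨
      (NoPl (E : Set V) ∧ tri E + 24 ≤ 6 * E.card) := by
  by_cases hK : K4F (E : Set V)
  · right
    refine ⟨hK, ?_⟩
    have hT := a3TAll (k4_of a3KL4 kHIT p2six).2.1 t6step tabGQ tr5 (finrank (ZMod 2) V)
      (by omega)
    refine hT V E (by exact_mod_cast hg.zero) ?_ hK hg.free
      (claimNoGQ tabGQ V (E : Set V) hg h6)
    rw [hg.span, finrank_top]
  · left
    have h := aKP2 a3KL4 kHIT tabK5 p2six (finrank (ZMod 2) V) h6 V (E : Set V) hg rfl hK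
    exact hDel V (finrank (ZMod 2) V - 1) E (by omega) h

end Pool.Agent.Work.MP_9f8812_co.RD
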