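import Pool.Agent.Work.MP_9f8812_co.RD.CW2
import Pool.Agent.Work.MP_9f8812_co.RD.Six
import Pool.Agent.Work.MP_9f8812_co.LG.Asm
import Pool.Agent.Work.MP_9f8812_co.EC.Dm
import Pool.Agent.Work.MP_9f8812_co.EC.Av2

/-!
# The structure of a smallest counterexample: the induction
-/

set_option autoImplicit false

namespace Pool.Agent.Work.MP_9f8812_co.RD

open Submodule Module
open Pool.Agent.WW
open Pool.Agent.Work.MP_9f8812_co.LG

/-- positivity, a light functional, or the structure -/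
theorem core (hDel : St_Del) (hA4 : St_A4) (hQ5 : St_Q5) (hP : St_P45) (lam : ℝ) (h5 : 5 ≤ lam)
    (V : Type) [AddCommGroup V] [Module (ZMod 2) V] [FiniteDimensional (ZMod 2) V]
    [DecidableEq V] (E : Finset V) (hg : Good (E : Set V)) (h4 : 4 ≤ finrank (ZMod 2) V) :
    0 < q lam E ⊥ ∨ (∃ f : V →ₗ[ZMod 2] ZMod 2, f ≠ 0 ∧ (supp E f : ℝ) ≤ lam) ∨
      (6 ≤ finrank (ZMod 2) V ∧ NoPl (E : Set V) ∧ tri E + 24 ≤ 6 * E.card ∧
        E.card ≤ 3 * finrank (ZMod 2) V) := by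
  have h0 : (0 : V) ∉ E := by exact_mod_cast hg.zero
  have light : ∀ m : ℕ, m ≤ 5 → (∃ f : V →ₗ[ZMod 2] ZMod 2, f ≠ 0 ∧ supp E f ≤ m) →
      ∃ f : V →ₗ[ZMod 2] ZMod 2, f ≠ 0 ∧ (supp E f : ℝ) ≤ lam := by
    rintro m hm ⟨f, hf, hs⟩
    refine ⟨f, hf, ?_⟩
    have : (supp E f : ℝ) ≤ 5 := by exact_mod_cast hs.trans hm
    linarith
  have hcard := good_card E hg
  rcases Nat.lt_or_ge 5 (finrank (ZMod 2) V) with h6 | h6
  · rcases rank6 hDel V E hg h6 with h | h
    · exact Or.inr (Or.inl (light 4 (by norm_num) h))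
    · exact Or.inr (Or.inr ⟨h6, h.1, h.2, hcard⟩)
  · rcases Nat.lt_or_ge 4 (finrank (ZMod 2) V) with h | h
    · have hV : finrank (ZMod 2) V = 5 := by omega
      rcases rank5 V E hV h0 hg.span hg.free with h | ⟨b, hb, hE⟩
      · exact Or.inr (Or.inl (light 5 le_rfl h))
      · obtain ⟨e1, e2⟩ := hQ5 V E b hV hb hE
        exact Or.inl (hP V lam E h5 h0 (Or.inr ⟨hV, e1, e2⟩))
    · have hV : finrank (ZMod 2) V = 4 := by omega
      by_cases hf : ∃ f : V →ₗ[ZMod 2] ZMod 2, f ≠ 0 ∧ supp E f ≤ 5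
      · exact Or.inr (Or.inl (light 5 le_rfl hf))
      · push Not at hf
        obtain ⟨e1, e2⟩ := hA4 V E hV h0 (by omega) (fun f hf0 => hf f hf0)
        exact Or.inl (hP V lam E h5 h0 (Or.inl ⟨hV, e1, e2⟩))

theorem Mn.refl {V : Type} [AddCommGroup V] [Module (ZMod 2) V] (E : Set V) : Mn E E := by
  refine ⟨⊥, LinearMap.id, ?_, fun w hw => (mem_bot _).1 hw, fun y hy => ⟨y, hy, ?_⟩⟩
  · unfold Gen
    exact bot_le
  · rw [LinearMap.id_apply, ZModModule.add_self]
    exact zero_mem _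

/-- the reduced minor -/
theorem main (hDel : St_Del) (hA4 : St_A4) (hQ5 : St_Q5) (hP : St_P45) (hMO : St_MO) (lam : ℝ)
    (h5 : 5 ≤ lam) (V0 : Type) [AddCommGroup V0] [Module (ZMod 2) V0]
    [FiniteDimensional (ZMod 2) V0] (E0 : Finset V0) (h0 : (0 : V0) ∉ E0)
    (hK : ¬ HasK5 (E0 : Set V0)) (hle : q lam E0 ⊥ ≤ 0) :
    ∃ (W : Type) (_ : AddCommGroup W) (_ : Module (ZMod 2) W) (_ : FiniteDimensional (ZMod 2) W)
      (_ : DecidableEq W) (F : Finset W), Mn (E0 : Set V0) (F : Set W) ∧ Good (F : Set W) ∧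
      q lam F ⊥ ≤ 0 ∧ 6 ≤ finrank (ZMod 2) W ∧ NoPl (F : Set W) ∧ tri F + 24 ≤ 6 * F.card ∧
      F.card ≤ 3 * finrank (ZMod 2) W ∧
      ∀ f : W →ₗ[ZMod 2] ZMod 2, f ≠ 0 → lam < (supp F f : ℝ) := by
  classical
  by_contra hno
  have hL : Light lam (Mc (E0 : Set V0)) := by
    intro V _ _ _ E X hX hg hn
    obtain ⟨_, rfl, hMn⟩ := hX
    by_cases hq : 0 < q lam E ⊥
    · exact Or.inl hq
    · right
      by_cases hf : ∃ f : V →ₗ[ZMod 2] ZMod 2, f ≠ 0 ∧ (supp E f : ℝ) ≤ lam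
      · obtain ⟨f, hf0, hs⟩ := hf
        exact ⟨f, hf0, bot_le, hs⟩
      · exfalso
        apply hno
        rcases core hDel hA4 hQ5 hP lam h5 V E hg hn with h | h | ⟨h6, h1, h2, h3⟩
        · exact absurd h hq
        · exact absurd h hf
        · push Not at hf hq
          exact ⟨V, inferInstance, inferInstance, inferInstance, Classical.decEq V, E, hMn, hg, hq,
            h6, h1, h2, h3, hf⟩
  exact absurd (pos_of_light lam h5 (Mc (E0 : Set V0)) (hMO V0 (E0 : Set V0)) hL V0 E0 ⊥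
    ⟨inferInstance, rfl, Mn.refl _⟩ h0 hK) (not_lt.2 hle)

/-- Theorem RED for a family of vectors -/
theorem red (hDel : St_Del) (hA4 : St_A4) (hQ5 : St_Q5) (hP : St_P45) (hMO : St_MO)
    (hF1 : St_F1) (hF2 : St_F2) (hF3 : St_F3) (hF4 : St_F4) (hF5 : St_F5) (hTr : St_Tr)
    (hRk : St_Rk) (hCp : St_Cp) (hTp : St_Tp) (hFam : LG.St_Fam)
    (n : ℕ) (ι : Type) [Fintype ι] [DecidableEq ι] (v : ι → (Fin n → ZMod 2))
    (h0 : ∀ i, v i ≠ 0) (hK : ¬ HasK5 (Set.range v)) (lam : ℝ) (h5 : 5 ≤ lam)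
    (hle : chm v lam Finset.univ ∅ ≤ 0) :
    ∃ T Y : Finset ι, Disjoint T Y ∧ chm v lam T Y ≤ 0 ∧ Reduced v lam T Y ∧
      3 * rkm v Y T + 7 * ⌊lam⌋₊ ≤ 3 * T.card + 8 ∧ T.card + 1 ≤ 3 * rkm v Y T ∧
      lam < (rkm v Y T : ℝ) := by
  classical
  set E0 : Finset (Fin n → ZMod 2) := Finset.univ.image v with hE0
  have hEr : (E0 : Set (Fin n → ZMod 2)) = Set.range v := by
    rw [hE0]; simp
  have hq0 : q lam E0 ⊥ ≤ 0 := by
    rw [hE0, ← hFam (Fin n → ZMod 2) ι lam v]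
    have hfac : ∑ A : Finset ι, (-1 : ℝ) ^ A.card * lam ^ (finrank (ZMod 2) (Fin n → ZMod 2) -
        finrank (ZMod 2) ↥(span (ZMod 2) (v '' (A : Set ι)))) =
        lam ^ (finrank (ZMod 2) (Fin n → ZMod 2) - rk v Finset.univ) *
          chm v lam Finset.univ ∅ := by
      unfold chm
      rw [Finset.mul_sum, Finset.powerset_univ]
      refine Finset.sum_congr rfl fun A _ => ?_
      have k0 : rk v ∅ = 0 := by
        unfold rk
        rw [Finset.coe_empty, Set.image_empty, span_empty, finrank_bot]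
      have k1 : rk v A ≤ rk v Finset.univ :=
        Submodule.finrank_mono (Submodule.span_mono (Set.image_mono (by simp)))
      have k2 : rk v Finset.univ ≤ finrank (ZMod 2) (Fin n → ZMod 2) := Submodule.finrank_le _
      unfold rkm
      rw [Finset.union_empty, Finset.union_empty, k0, Nat.sub_zero, Nat.sub_zero]
      have k3 : finrank (ZMod 2) (Fin n → ZMod 2) -
          finrank (ZMod 2) ↥(span (ZMod 2) (v '' (A : Set ι))) =
          (finrank (ZMod 2) (Fin n → ZMod 2) - rk v Finset.univ) +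
          (rk v Finset.univ - rk v A) := by
        change finrank (ZMod 2) (Fin n → ZMod 2) - rk v A = _
        omega
      rw [k3, pow_add]
      ring
    rw [hfac]
    exact mul_nonpos_of_nonneg_of_nonpos (by positivity) hle
  obtain ⟨W, _, _, _, _, F, hMn, hg, hq, h6, hpl, htri, hc, hs⟩ :=
    main hDel hA4 hQ5 hP hMO lam h5 (Fin n → ZMod 2) E0
      (by
        intro h
        rw [← Finset.mem_coe, hEr] at h
        obtain ⟨i, hi⟩ := h
        exact h0 i hi)
      (by rw [hEr]; exact hK) hq0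
  rw [hEr] at hMn
  have h0F : (0 : W) ∉ F := by exact_mod_cast hg.zero
  have hne : F.Nonempty := by
    rw [Finset.nonempty_iff_ne_empty]
    rintro rfl
    have := hg.span
    rw [Finset.coe_empty, span_empty] at this
    have h1 : finrank (ZMod 2) W = 0 := by
      rw [← finrank_top (ZMod 2) W, ← this, finrank_bot]
    omega
  obtain ⟨Y, g, σ, hTrd⟩ := hTr n ι v W F hne h0F hMn
  have hchm := hCp n ι v W F Y g σ lam hTrd hg.span
  have h9 : finrank (ZMod 2) W + 9 ≤ F.card := by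
    refine corank9 W F (by omega) hg.span hg.free fun f hf => ?_
    have h := hs f hf
    have h' : (5 : ℝ) < (supp F f : ℝ) := lt_of_le_of_lt h5 h
    have h'' : 5 < supp F f := by exact_mod_cast h'
    omega
  have h3 : F.card + 1 ≤ 3 * finrank (ZMod 2) W := EC.dm_all _ h6 W F hg rfl
  have h9' : 3 * finrank (ZMod 2) W + 7 * ⌊lam⌋₊ ≤ 3 * F.card + 8 := by
    have h7 := EC.coratio W F (by omega) hg.span hg.free (⌊lam⌋₊ + 1) fun f hf => by
      have h' : (⌊lam⌋₊ : ℝ) < (supp F f : ℝ) :=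
        lt_of_le_of_lt (Nat.floor_le (by linarith)) (hs f hf)
      exact_mod_cast h'
    omega
  have hlr : lam < (finrank (ZMod 2) W : ℝ) := by
    by_contra hcon
    push Not at hcon
    have h7 := EC.coratio W F (by omega) hg.span hg.free (finrank (ZMod 2) W + 1) fun f hf => by
      have h' : (finrank (ZMod 2) W : ℝ) < (supp F f : ℝ) := lt_of_le_of_lt hcon (hs f hf)
      exact_mod_cast h'
    omega
  refine ⟨F.image g, Y, ?_, ?_, ?_, ?_⟩
  · rw [Finset.disjoint_left]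
    intro a ha
    obtain ⟨x, hx, rfl⟩ := Finset.mem_image.1 ha
    exact hTrd.dis x hx
  · rw [hchm]
    exact hq
  · refine hTp n ι v W F Y g σ lam hTrd hg.span ?_
    refine ⟨hF1 W F h0F, hF2 W F hg, h6, hc, hF3 W F hpl (by omega), ?_,
      hF5 W lam F hs, ?_⟩
    · have := hF4 W F h0F
      omega
    · intro _
      omega
  · rw [hRk n ι v W F Y g σ hTrd F (Finset.Subset.refl F), hg.span, finrank_top,
      Finset.card_image_of_injOn fun x hx y hy h => hTrd.inj x hx y hy h]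
    exact ⟨h9', h3, hlr⟩

end Pool.Agent.Work.MP_9f8812_co.RD
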