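import Pool.Agent.Work.MP_9f8812_co.LG.Defs
import Pool.Agent.Work.MP_9f8812_co.SCD

/-!
# The structure of a smallest counterexample: definitions

Everything lives in finite dimensional vector spaces over `ZMod 2`; a simple binary matroid is a
finite set `E` of nonzero vectors; `HasK5`, `Gen`, `Pres`, `VC`, `Good`, `tri` are the definitions
of `Pool.Agent.Work.MP_a8f287_co.Defs`, and `q`, `cnt`, `Qp`, `OK` those of `LG.Defs`.
-/

set_option autoImplicit false

namespace Pool.Agent.Work.MP_9f8812_co.RD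

open Submodule Module
open Pool.Agent.WW (HasK5 Gen Pres VC Good tri)
open Pool.Agent.Work.MP_9f8812_co.LG

section

variable {V W : Type} [AddCommGroup V] [Module (ZMod 2) V] [AddCommGroup W] [Module (ZMod 2) W]

/-- `F` is a restriction of a contraction of `E`, parallel elements identified: `K` is contracted,
`σ` embeds the space of `F` into the space of `E` modulo `K`, and every element of `F` comes from an
element of `E` -/
def Mn (E : Set V) (F : Set W) : Prop :=
  ∃ (K : Submodule (ZMod 2) V) (σ : W →ₗ[ZMod 2] V), Gen E K ∧ (∀ w, σ w ∈ K → w = 0) ∧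
    ∀ y ∈ F, Pres E K (σ y)

/-- the number of elements of `E` on which the functional `f` is nonzero -/
noncomputable def supp (E : Finset V) (f : V →ₗ[ZMod 2] ZMod 2) : ℕ :=
  ({x ∈ (E : Set V) | f x ≠ 0}).ncard

/-- the number of nonzero vectors outside `E` -/
noncomputable def a1 (E : Finset V) : ℕ := Nat.card {x : V // x ≠ 0 ∧ x ∉ E}

/-- the number of ordered pairs of distinct nonzero vectors which span a line outside `E` -/
noncomputable def a2 (E : Finset V) : ℕ :=
  Nat.card {p : V × V // p.1 ≠ 0 ∧ p.2 ≠ 0 ∧ p.1 ≠ p.2 ∧ p.1 ∉ E ∧ p.2 ∉ E ∧ p.1 + p.2 ∉ E}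

/-- no plane contains six points of `E` (identical to `WW.K4F`) -/
def NoPl (E : Set V) : Prop := ∀ U : Submodule (ZMod 2) V, finrank (ZMod 2) U = 3 →
  (E ∩ (U : Set V)).ncard ≤ 5

/-- `s` is the sequence of spokes with period `n` up to the hub `h` (identical to `WW.Spk`) -/
def Spk (n : ℕ) (h : V) (s : ℕ → V) : Prop :=
  (∀ i, s (i + n) = s i + h) ∧
    LinearIndependent (ZMod 2) (Fin.cons h (fun i : Fin n => s i) : Fin (n + 1) → V) ∧
    finrank (ZMod 2) V = n + 1

/-- the set `Delta` with `n` spokes (identical to `WW.IsDel`): the hub, the spokes `s i` and the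
rims `s i + s (i + 1)` -/
def IsDel (n : ℕ) (S : Set V) : Prop := ∃ (h : V) (s : ℕ → V), Spk n h s ∧
  ∀ v, v ∈ S ↔ v = h ∨ (∃ i, v = s i) ∨ ∃ i, v = s i + s (i + 1)

end

/-- the class of all minors of `E0` -/
def Mc {V0 : Type} [AddCommGroup V0] [Module (ZMod 2) V0] (E0 : Set V0) : Prp :=
  fun V _ _ E X => FiniteDimensional (ZMod 2) V ∧ X = ⊥ ∧ Mn E0 E

section

variable {n : ℕ} {ι : Type} [DecidableEq ι]

/-- the rank of `A` in the minor `M / Y` of the vector matroid `M` of `v` -/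
noncomputable def rkm (v : ι → (Fin n → ZMod 2)) (Y A : Finset ι) : ℕ :=
  rk v (A ∪ Y) - rk v Y

/-- the characteristic polynomial at `lam` of the minor `N = (M | (T ∪ Y)) / Y` of the vector
matroid `M` of `v` (for disjoint `T`, `Y`) -/
noncomputable def chm (v : ι → (Fin n → ZMod 2)) (lam : ℝ) (T Y : Finset ι) : ℝ :=
  ∑ A ∈ T.powerset, (-1 : ℝ) ^ A.card * lam ^ (rkm v Y T - rkm v Y A)

/-- the minor `N = (M | (T ∪ Y)) / Y` is simple, vertically 4-connected, of rank `r ≥ 6`, has at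
most `3 r` elements, at most five elements in every plane, fewer triangles than elements (by at
least four), all its cocircuits have more than `lam` elements, and its corank is at least `8` if
`lam = 5` -/
structure Reduced (v : ι → (Fin n → ZMod 2)) (lam : ℝ) (T Y : Finset ι) : Prop where
  simple : ∀ A ⊆ T, A.card ≤ 2 → rkm v Y A = A.card
  vertical : ∀ A ⊆ T, rkm v Y A < rkm v Y T → rkm v Y (T \ A) < rkm v Y T →
    rkm v Y T + 3 ≤ rkm v Y A + rkm v Y (T \ A)
  rank : 6 ≤ rkm v Y T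
  sparse : T.card ≤ 3 * rkm v Y T
  planes : ∀ A ⊆ T, rkm v Y A ≤ 3 → A.card ≤ 5
  triangles : ((T.powersetCard 3).filter fun A => rkm v Y A = 2).card + 4 ≤ T.card
  cocircuits : ∀ A ⊆ T, rkm v Y (T \ A) < rkm v Y T → lam < A.card
  corank : lam = 5 → rkm v Y T + 8 ≤ T.card

/-- `F` is realised as the minor `(M | (T ∪ Y)) / Y`, `T = g(F)`, of the vector matroid `M`
of `v` -/
structure Tr {W : Type} [AddCommGroup W] [Module (ZMod 2) W] (v : ι → (Fin n → ZMod 2))
    (F : Finset W) (Y : Finset ι) (g : W → ι) (σ : W →ₗ[ZMod 2] (Fin n → ZMod 2)) : Prop where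
  inj : ∀ x ∈ F, ∀ y ∈ F, g x = g y → x = y
  dis : ∀ x ∈ F, g x ∉ Y
  cong : ∀ x ∈ F, v (g x) + σ x ∈ span (ZMod 2) (v '' (Y : Set ι))
  ker : ∀ w, σ w ∈ span (ZMod 2) (v '' (Y : Set ι)) → w = 0

end

/-- the properties `Reduced` for a finite set `F` of vectors spanning `W` -/
structure RedF {W : Type} [AddCommGroup W] [Module (ZMod 2) W] [DecidableEq W] (lam : ℝ)
    (F : Finset W) : Prop where
  simple : ∀ G ⊆ F, G.card ≤ 2 → finrank (ZMod 2) ↥(span (ZMod 2) (G : Set W)) = G.card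
  vertical : ∀ G ⊆ F, finrank (ZMod 2) ↥(span (ZMod 2) (G : Set W)) < finrank (ZMod 2) W →
    finrank (ZMod 2) ↥(span (ZMod 2) ((F \ G : Finset W) : Set W)) < finrank (ZMod 2) W →
    finrank (ZMod 2) W + 3 ≤ finrank (ZMod 2) ↥(span (ZMod 2) (G : Set W)) +
      finrank (ZMod 2) ↥(span (ZMod 2) ((F \ G : Finset W) : Set W))
  rank : 6 ≤ finrank (ZMod 2) W
  sparse : F.card ≤ 3 * finrank (ZMod 2) W
  planes : ∀ G ⊆ F, finrank (ZMod 2) ↥(span (ZMod 2) (G : Set W)) ≤ 3 → G.card ≤ 5
  triangles : ((F.powersetCard 3).filter fun G : Finset W =>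
    finrank (ZMod 2) ↥(span (ZMod 2) (G : Set W)) = 2).card + 4 ≤ F.card
  cocircuits : ∀ G ⊆ F,
    finrank (ZMod 2) ↥(span (ZMod 2) ((F \ G : Finset W) : Set W)) < finrank (ZMod 2) W →
    lam < G.card
  corank : lam = 5 → finrank (ZMod 2) W + 8 ≤ F.card

end Pool.Agent.Work.MP_9f8812_co.RD
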