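import Pool.Agent.Work.MP_9f8812_co.RD.Stmts
import Pool.Agent.Work.MP_9f8812_co.SC4

/-!
# Item Crk: the corank at `lam = 5`
-/

set_option autoImplicit false

namespace Pool.Agent.Work.MP_9f8812_co.RD

open Submodule Module
open Pool.Agent.WW (HasK5 Gen Pres VC Good tri)
open Pool.Agent.Work.MP_9f8812_co.LG

namespace ICrk

/-- the number `D` and the rank function -/
theorem D_eq {n : ℕ} {ι : Type} [DecidableEq ι] (v : ι → (Fin n → ZMod 2)) (X Y : Finset ι) :
    D v X (span (ZMod 2) (v '' (Y : Set ι))) =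
      finrank (ZMod 2) ↥(span (ZMod 2) (v '' (Y : Set ι))) + rkm v Y X := by
  have h1 : D v X (span (ZMod 2) (v '' (Y : Set ι))) = rk v (X ∪ Y) := by
    unfold D rk
    rw [Finset.coe_union, Set.image_union, span_union]
  have h2 : rk v Y ≤ rk v (X ∪ Y) := by
    unfold rk
    refine Submodule.finrank_mono (span_mono (Set.image_mono ?_))
    rw [Finset.coe_union]
    exact Set.subset_union_right
  have h3 : rk v Y = finrank (ZMod 2) ↥(span (ZMod 2) (v '' (Y : Set ι))) := rfl
  rw [h1, ← h3]
  unfold rkm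
  omega

end ICrk

theorem pr_Crk (h : St_Rk) : St_Crk := by
  intro n ι _ _ v W _ _ _ F Y g σ hT h0 hsp hq
  by_contra hcon
  have hlt : F.card ≤ finrank (ZMod 2) W + 7 := by omega
  have hinj := hT.inj
  have hr : ∀ G ⊆ F, rkm v Y (G.image g) = finrank (ZMod 2) ↥(span (ZMod 2) (G : Set W)) :=
    h n ι v W F Y g σ hT
  have hrT : rkm v Y (F.image g) = finrank (ZMod 2) W := by
    rw [hr F (Finset.Subset.refl F), hsp, finrank_top]
  have hcT : (F.image g).card = F.card :=
    Finset.card_image_of_injOn fun x hx y hy hxy => hinj x hx y hy hxy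
  have hl : ∀ e ∈ F.image g, v e ∉ span (ZMod 2) (v '' (Y : Set ι)) := by
    intro e he hmem
    obtain ⟨x, hx, rfl⟩ := Finset.mem_image.1 he
    have h1 := add_mem hmem (hT.cong x hx)
    have h2 : v (g x) + (v (g x) + σ x) = σ x := by
      rw [← add_assoc, ZModModule.add_self, zero_add]
    rw [h2] at h1
    exact h0 (hT.ker x h1 ▸ hx)
  have hDT : D v (F.image g) (span (ZMod 2) (v '' (Y : Set ι))) =
      finrank (ZMod 2) ↥(span (ZMod 2) (v '' (Y : Set ι))) + finrank (ZMod 2) W := by
    rw [ICrk.D_eq, hrT]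
  have hDn := D_le v (F.image g) (span (ZMod 2) (v '' (Y : Set ι)))
  have hc : Cor v (F.image g) (span (ZMod 2) (v '' (Y : Set ι))) 7 := by
    unfold Cor
    rw [hcT, hDT]
    omega
  have hP := pos_of_cor (v := v) (F.image g) (span (ZMod 2) (v '' (Y : Set ι))) hl hc
  have hPR : (0 : ℝ) < ((P v (F.image g) (span (ZMod 2) (v '' (Y : Set ι))) : ℤ) : ℝ) := by
    exact_mod_cast hP
  have hPe : ((P v (F.image g) (span (ZMod 2) (v '' (Y : Set ι))) : ℤ) : ℝ) =
      5 ^ (n - D v (F.image g) (span (ZMod 2) (v '' (Y : Set ι)))) * q 5 F ⊥ := by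
    unfold P q
    push_cast
    rw [Finset.mul_sum]
    symm
    refine Finset.sum_nbij (fun G : Finset W => G.image g) ?_ ?_ ?_ ?_
    · intro G hG
      rw [Finset.mem_powerset] at hG ⊢
      exact Finset.image_subset_image hG
    · intro G hG G' hG' hGG
      rw [Finset.mem_coe, Finset.mem_powerset] at hG hG'
      have hGG' : G.image g = G'.image g := hGG
      have key : ∀ A B : Finset W, A ⊆ F → B ⊆ F → A.image g = B.image g → A ⊆ B := by
        intro A B hA hB hAB x hx
        have h1 : g x ∈ B.image g := hAB ▸ Finset.mem_image_of_mem g hx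
        obtain ⟨y, hy, hyx⟩ := Finset.mem_image.1 h1
        exact hinj y (hB hy) x (hA hx) hyx ▸ hy
      exact Finset.Subset.antisymm (key G G' hG hG' hGG') (key G' G hG' hG hGG'.symm)
    · intro A hA
      rw [Finset.mem_coe, Finset.mem_powerset] at hA
      refine ⟨F.filter fun x => g x ∈ A, ?_, ?_⟩
      · rw [Finset.mem_coe, Finset.mem_powerset]
        exact Finset.filter_subset _ _
      · show (F.filter fun x => g x ∈ A).image g = A
        ext i
        simp only [Finset.mem_image, Finset.mem_filter]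
        constructor
        · rintro ⟨x, ⟨-, hx⟩, rfl⟩
          exact hx
        · intro hi
          obtain ⟨x, hx, rfl⟩ := Finset.mem_image.1 (hA hi)
          exact ⟨x, ⟨hx, hi⟩, rfl⟩
    · intro G hG
      rw [Finset.mem_powerset] at hG
      have hcG : (G.image g).card = G.card :=
        Finset.card_image_of_injOn fun x hx y hy hxy => hinj x (hG hx) y (hG hy) hxy
      have hle : finrank (ZMod 2) ↥(span (ZMod 2) (G : Set W)) ≤ finrank (ZMod 2) W :=
        Submodule.finrank_le _
      have he : n - D v (G.image g) (span (ZMod 2) (v '' (Y : Set ι))) =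
          (n - D v (F.image g) (span (ZMod 2) (v '' (Y : Set ι)))) +
            (finrank (ZMod 2) W - finrank (ZMod 2) ↥(span (ZMod 2) (G : Set W))) := by
        rw [hDT] at hDn ⊢
        rw [ICrk.D_eq, hr G hG]
        omega
      rw [hcG, he, sup_bot_eq, pow_add]
      ring
  rw [hPe] at hPR
  have h5 : (0 : ℝ) < 5 ^ (n - D v (F.image g) (span (ZMod 2) (v '' (Y : Set ι)))) := by
    positivity
  exact absurd hq (not_le.2 (pos_of_mul_pos_right hPR h5.le))

end Pool.Agent.Work.MP_9f8812_co.RD
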