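import Pool.Agent.Work.MP_9f8812_co.RD.Stmts
import Pool.Agent.Work.MP_9f8812_co.LG.Stmts

/-!
Block RD (MP_9f8812_co), item G1: the characteristic polynomial as a sum over the possible kernels.
-/

set_option autoImplicit false

namespace Pool.Agent.Work.MP_9f8812_co.RD

open Submodule Module
open Pool.Agent.Work.MP_9f8812_co.LG

namespace IG1

variable {V : Type} [AddCommGroup V] [Module (ZMod 2) V]

/-- maps with kernel `K` are the injective maps on the quotient -/
noncomputable def e1 (W : Type) [AddCommGroup W] [Module (ZMod 2) W] (K : Submodule (ZMod 2) V) :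
    {f : V →ₗ[ZMod 2] W // LinearMap.ker f = K} ≃
      {g : (V ⧸ K) →ₗ[ZMod 2] W // LinearMap.ker g = ⊥} where
  toFun f := ⟨K.liftQ f.1 (le_of_eq f.2.symm), Submodule.ker_liftQ_eq_bot _ _ _ (le_of_eq f.2)⟩
  invFun g := ⟨g.1.comp K.mkQ, by
    rw [LinearMap.ker_comp, g.2]
    exact K.ker_mkQ⟩
  left_inv f := by
    apply Subtype.ext
    exact K.liftQ_mkQ f.1 _
  right_inv g := by
    apply Subtype.ext
    apply Submodule.linearMap_qext
    exact K.liftQ_mkQ _ _

theorem ker_iff {Q W : Type} [AddCommGroup Q] [Module (ZMod 2) Q] [AddCommGroup W]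
    [Module (ZMod 2) W] {m : ℕ} (b : Basis (Fin m) (ZMod 2) Q) (g : Q →ₗ[ZMod 2] W) :
    LinearMap.ker g = ⊥ ↔ LinearIndependent (ZMod 2) (fun i => g (b i)) := by
  constructor
  · intro h
    exact b.linearIndependent.map' g h
  · intro h
    rw [LinearMap.ker_eq_bot']
    intro x hx
    have h1 : ∑ i, b.repr x i • g (b i) = 0 := by
      have h2 := b.sum_repr x
      rw [← hx]
      conv_rhs => rw [← h2]
      rw [map_sum]
      simp only [map_smul]
    have h3 := Fintype.linearIndependent_iff.1 h (fun i => b.repr x i) h1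
    have h4 := b.sum_repr x
    rw [← h4]
    exact Finset.sum_eq_zero fun i _ => by rw [h3 i, zero_smul]

theorem card_ker [FiniteDimensional (ZMod 2) V] (k : ℕ) (hk : finrank (ZMod 2) V ≤ k)
    (K : Submodule (ZMod 2) V) :
    (Nat.card {f : V →ₗ[ZMod 2] (Fin k → ZMod 2) // LinearMap.ker f = K} : ℝ) =
      ∏ i ∈ Finset.range (finrank (ZMod 2) V - finrank (ZMod 2) ↥K), ((2 : ℝ) ^ k - 2 ^ i) := by
  have hm : finrank (ZMod 2) (V ⧸ K) = finrank (ZMod 2) V - finrank (ZMod 2) ↥K := by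
    have := K.finrank_quotient_add_finrank
    omega
  have hmk : finrank (ZMod 2) (V ⧸ K) ≤ finrank (ZMod 2) (Fin k → ZMod 2) := by
    rw [finrank_fin_fun, hm]
    omega
  let b := Module.finBasis (ZMod 2) (V ⧸ K)
  have e2 : {g : (V ⧸ K) →ₗ[ZMod 2] (Fin k → ZMod 2) // LinearMap.ker g = ⊥} ≃
      {s : Fin (finrank (ZMod 2) (V ⧸ K)) → (Fin k → ZMod 2) // LinearIndependent (ZMod 2) s} :=
    Equiv.subtypeEquiv (b.constr ℕ).symm.toEquiv (fun g => ker_iff b g)
  have h1 := card_linearIndependent (K := ZMod 2) (V := Fin k → ZMod 2) hmk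
  rw [Nat.card_congr (e1 (Fin k → ZMod 2) K), Nat.card_congr e2, h1, ← hm, Finset.prod_range,
    Nat.cast_prod]
  refine Finset.prod_congr rfl fun i _ => ?_
  have h2 : finrank (ZMod 2) (Fin k → ZMod 2) = k := finrank_fin_fun _
  have hik : (i : ℕ) ≤ k := by
    have := i.2
    omega
  rw [h2, ZMod.card, Nat.cast_sub (Nat.pow_le_pow_right (by norm_num) hik)]
  push_cast
  rfl

end IG1

theorem pr_G1 (hE : LG.St_Ev) (hP : LG.St_Pid) (hC : LG.St_Cnt) : St_G1 := by
  intro V _ _ _ _ lam E _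
  classical
  set T := Finset.univ.filter (fun K : Submodule (ZMod 2) V => ∀ x ∈ E, x ∉ K) with hT
  set R : Polynomial ℝ := ∑ K ∈ T,
    ∏ i ∈ Finset.range (finrank (ZMod 2) V - finrank (ZMod 2) ↥K),
      (Polynomial.X - Polynomial.C ((2 : ℝ) ^ i)) with hR
  have hRe : ∀ y : ℝ, R.eval y = ∑ K ∈ T,
      ∏ i ∈ Finset.range (finrank (ZMod 2) V - finrank (ZMod 2) ↥K), (y - 2 ^ i) := by
    intro y
    rw [hR, Polynomial.eval_finsetSum]
    refine Finset.sum_congr rfl fun K _ => ?_
    rw [Polynomial.eval_prod]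
    refine Finset.prod_congr rfl fun i _ => ?_
    rw [Polynomial.eval_sub, Polynomial.eval_X, Polynomial.eval_C]
  have : Finite V := Module.finite_of_finite (ZMod 2)
  have key : Qp E ⊥ = R := by
    refine hP _ _ (finrank (ZMod 2) V) fun k hk => ?_
    rw [hE V ((2 : ℝ) ^ k) E ⊥, hC V k E ⊥, hRe]
    have : Finite (V →ₗ[ZMod 2] (Fin k → ZMod 2)) :=
      Finite.of_injective (fun f : V →ₗ[ZMod 2] (Fin k → ZMod 2) => (f : V → (Fin k → ZMod 2)))
        DFunLike.coe_injective
    let _ : Fintype (V →ₗ[ZMod 2] (Fin k → ZMod 2)) := Fintype.ofFinite _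
    set s : Finset (V →ₗ[ZMod 2] (Fin k → ZMod 2)) :=
      Finset.univ.filter (fun f => ∀ x ∈ E, f x ≠ 0) with hs
    have h1 : cnt k E ⊥ = s.card := by
      unfold cnt
      refine Nat.subtype_card s fun f => ?_
      rw [hs, Finset.mem_filter]
      constructor
      · rintro ⟨-, h⟩
        refine ⟨fun x hx => ?_, h⟩
        rw [Submodule.mem_bot] at hx
        rw [hx, map_zero]
      · rintro ⟨-, h⟩
        exact ⟨Finset.mem_univ _, h⟩
    have hmaps : Set.MapsTo (fun f : V →ₗ[ZMod 2] (Fin k → ZMod 2) => LinearMap.ker f)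
        (s : Set (V →ₗ[ZMod 2] (Fin k → ZMod 2))) (T : Set (Submodule (ZMod 2) V)) := by
      intro f hf
      rw [Finset.mem_coe, hs, Finset.mem_filter] at hf
      show LinearMap.ker f ∈ (T : Set (Submodule (ZMod 2) V))
      rw [Finset.mem_coe, hT, Finset.mem_filter]
      exact ⟨Finset.mem_univ _, fun x hx h => hf.2 x hx (LinearMap.mem_ker.1 h)⟩
    rw [h1, Finset.card_eq_sum_card_fiberwise hmaps, Nat.cast_sum]
    refine Finset.sum_congr rfl fun K hK => ?_
    rw [← IG1.card_ker k hk K]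
    congr 1
    symm
    refine Nat.subtype_card _ fun f => ?_
    rw [Finset.mem_filter, hs, Finset.mem_filter]
    constructor
    · rintro ⟨-, h⟩
      exact h
    · intro h
      refine ⟨⟨Finset.mem_univ _, fun x hx h0 => ?_⟩, h⟩
      rw [hT, Finset.mem_filter] at hK
      refine hK.2 x hx ?_
      rw [← h]
      exact LinearMap.mem_ker.2 h0
  rw [← hE V lam E ⊥, key, hRe]

end Pool.Agent.Work.MP_9f8812_co.RD
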