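import Pool.Agent.Work.MP_9f8812_co.RD.Defs
import Pool.Agent.Work.MP_a8f287_co.C3.Main5

/-!
# The structure of a smallest counterexample: rank five
-/

set_option autoImplicit false

namespace Pool.Agent.Work.MP_9f8812_co.RD

open Submodule Module
open Pool.Agent.WW
open Pool.Agent.Work.MP_9f8812_co.LG (wt)

namespace IR5

theorem tab : ∀ M ∈ r5L, M = 2219281334 ∨ ∃ g < 32, g ≠ 0 ∧
    ((List.range 32).filter (fun n => M.testBit n && parC (g &&& n))).length ≤ 5 := by
  decide +kernel

/-- images of the unit codes -/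
def hh : Fin 5 → ℕ := ![3, 13, 20, 24, 30]

/-- the code of a combination -/
def cd (c : Fin 5 → ZMod 2) : ℕ :=
  (if c 0 = 0 then 0 else hh 0) ^^^ ((if c 1 = 0 then 0 else hh 1) ^^^
    ((if c 2 = 0 then 0 else hh 2) ^^^ ((if c 3 = 0 then 0 else hh 3) ^^^
      (if c 4 = 0 then 0 else hh 4))))

theorem cd_spec : ∀ c : Fin 5 → ZMod 2, cd c < 32 ∧ (cd c = 0 → c = 0) ∧
    (Nat.testBit 2219281334 (cd c) = true ↔ wt c = 3 ∨ wt c = 4) := by
  decide +kernel

theorem par_spec : ∀ g < 32, ∀ n < 32,
    (∑ i : Fin 5, if n.testBit i then (if g.testBit i then (1 : ZMod 2) else 0) else 0) =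
      if parC (g &&& n) then 1 else 0 := by
  decide +kernel

theorem g_spec : ∀ g < 32, g ≠ 0 → ∃ i : Fin 5, g.testBit i = true := by
  decide +kernel

variable {V : Type} [AddCommGroup V] [Module (ZMod 2) V]

theorem smul_comb (b : Fin 5 → V) (a : ZMod 2) (n : ℕ) :
    a • comb b n = comb b (if a = 0 then 0 else n) := by
  have : a = 0 ∨ a = 1 := by revert a; decide
  rcases this with rfl | rfl
  · simp [comb_zero]
  · simp

theorem comb_cd (b : Fin 5 → V) (c : Fin 5 → ZMod 2) :
    ∑ i, c i • comb b (hh i) = comb b (cd c) := by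
  rw [Fin.sum_univ_five]
  simp only [smul_comb, cd, comb_xor]
  simp only [add_assoc]

end IR5

/-- a set of rank five without `M(K5)` has a functional with support at most five or is the
quadric `Q(4,2)` -/
theorem rank5 (V : Type) [AddCommGroup V] [Module (ZMod 2) V] [FiniteDimensional (ZMod 2) V]
    (E : Finset V) (hV : finrank (ZMod 2) V = 5) (h0 : (0 : V) ∉ E)
    (hs : span (ZMod 2) (E : Set V) = ⊤) (hK : ¬ HasK5 (E : Set V)) :
    (∃ f : V →ₗ[ZMod 2] ZMod 2, f ≠ 0 ∧ supp E f ≤ 5) ∨
      ∃ b : Fin 5 → V, LinearIndependent (ZMod 2) b ∧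
        ∀ c : Fin 5 → ZMod 2, ∑ i, c i • b i ∈ E ↔ wt c = 3 ∨ wt c = 4 := by
  classical
  obtain ⟨M, hM, b, hb, hMb⟩ := claimR5 r5L r5_closed V (E : Set V) hV (by exact_mod_cast h0) hs hK
  rcases IR5.tab M hM with rfl | ⟨g, hg, hg0, hc⟩
  · right
    refine ⟨fun i => comb b (IR5.hh i), ?_, ?_⟩
    · rw [Fintype.linearIndependent_iff]
      intro c hc i
      rw [IR5.comb_cd] at hc
      have h1 := r5s_comb_zero_imp hb _ (IR5.cd_spec c).1 hc
      rw [(IR5.cd_spec c).2.1 h1]
      rfl
    · intro c
      rw [IR5.comb_cd, ← Finset.mem_coe, ← hMb _ (IR5.cd_spec c).1]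
      exact (IR5.cd_spec c).2.2
  · left
    have hspan : span (ZMod 2) (Set.range b) = ⊤ := by
      rw [eq_top_iff]
      intro v _
      obtain ⟨n, _, rfl⟩ := r5s_comb_surj hV hb v
      unfold comb
      refine sum_mem fun i _ => ?_
      split_ifs
      · exact subset_span ⟨i, rfl⟩
      · exact zero_mem _
    let B := Basis.mk hb hspan.ge
    have hB : ∀ i, B i = b i := fun i => by simp [B]
    let f : V →ₗ[ZMod 2] ZMod 2 := B.constr (ZMod 2)
      (fun i => if g.testBit i then (1 : ZMod 2) else 0)
    have hfb : ∀ i, f (b i) = if g.testBit i then (1 : ZMod 2) else 0 := by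
      intro i
      rw [← hB i]
      exact B.constr_basis _ _ i
    have hf : ∀ n < 32, f (comb b n) = if parC (g &&& n) then 1 else 0 := by
      intro n hn
      rw [← IR5.par_spec g hg n hn]
      unfold comb
      rw [map_sum]
      refine Finset.sum_congr rfl fun i _ => ?_
      split_ifs with h1 h2
      · rw [hfb, if_pos h2]
      · rw [hfb, if_neg h2]
      · exact map_zero f
    refine ⟨f, ?_, ?_⟩
    · intro h
      obtain ⟨i, hi⟩ := IR5.g_spec g hg hg0
      have := hfb i
      rw [h, if_pos hi] at this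
      exact absurd this (by simp)
    · unfold supp
      set l := (List.range 32).filter (fun n => M.testBit n && parC (g &&& n)) with hl
      have hsub : {x ∈ (E : Set V) | f x ≠ 0} ⊆ ((l.map (comb b)).toFinset : Set V) := by
        rintro x ⟨hx, hfx⟩
        obtain ⟨n, hn, rfl⟩ := r5s_comb_surj hV hb x
        rw [hf n hn] at hfx
        have h1 : parC (g &&& n) = true := by
          by_contra hh
          rw [if_neg hh] at hfx
          exact hfx rfl
        have h2 : M.testBit n = true := (hMb n hn).2 hx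
        simp only [List.coe_toFinset, List.mem_map, Set.mem_setOf_eq]
        refine ⟨n, ?_, rfl⟩
        rw [hl, List.mem_filter]
        exact ⟨List.mem_range.2 hn, by simp [h1, h2]⟩
      refine (Set.ncard_le_ncard hsub (Finset.finite_toSet _)).trans ?_
      rw [Set.ncard_coe_finset]
      refine (List.toFinset_card_le _).trans ?_
      rw [List.length_map]
      exact hc

end Pool.Agent.Work.MP_9f8812_co.RD
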