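import Pool.Agent.Work.MP_9f8812_co.RD.Defs

/-!
# The structure of a smallest counterexample: statements

Theorem RED: let `M` be a loopless binary matroid without `M(K5)`-minor and `lam ≥ 5` real with
`P(M; lam) ≤ 0`.  Then `M` has a simple minor `N` with `P(N; lam) ≤ 0` which is vertically
4-connected, has rank `r ≥ 6`, at most `3 r` elements, no plane with six elements, at most
`|E| - 4` triangles, and only cocircuits with more than `lam` elements.  Every docstring is the
complete proof of its statement.  All vector spaces are over `GF(2)`, so `x + x = 0`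
(`ZModModule.add_self`), every scalar is `0` or `1`, and a finite dimensional space is finite
(`Module.finite_of_finite (ZMod 2)`).  Nobody waits for anybody: hypotheses of your theorem are
other statements (`pr_X (h : St_Y) : St_X`) where the docstring says so.
-/

set_option autoImplicit false

namespace Pool.Agent.Work.MP_9f8812_co.RD

open Submodule Module
open Pool.Agent.WW (HasK5 Gen Pres VC Good tri)
open Pool.Agent.Work.MP_9f8812_co.LG

/-! ### Minors -/

/-- EASY-MEDIUM. Minors of minors are minors.  Let `K1, σ1` be the data of `Mn E F` and `K2, σ2`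
those of `Mn F G`.  Take `K = K1 ⊔ K2.map σ1`, `σ = σ1 ∘ σ2`.
`Gen E K`: `K1 ≤ span (E ∩ K1) ≤ span (E ∩ K)`; `K2 ≤ span (F ∩ K2)`, and for `x ∈ F ∩ K2` there is
`z ∈ E` with `z + σ1 x ∈ K1` (`Pres`), so `z ∈ K` (as `σ1 x ∈ K`) and
`σ1 x = (z + σ1 x) + z ∈ span (E ∩ K)`.
`σ w ∈ K → w = 0`: `σ1 (σ2 w) = k + σ1 k2` with `k ∈ K1`, `k2 ∈ K2` (`Submodule.mem_sup`,
`mem_map`), so `σ1 (σ2 w + k2) ∈ K1`, hence `σ2 w + k2 = 0`, `σ2 w = k2 ∈ K2`, `w = 0`.
`Pres E K (σ y)` for `y ∈ G`: `x + σ2 y ∈ K2` with `x ∈ F`, `z + σ1 x ∈ K1` with `z ∈ E`, so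
`z + σ y = (z + σ1 x) + σ1 (x + σ2 y) ∈ K`.  Model: `WW.HasK5.of_map` in
`Work/MP_a8f287_co/Bd/B01.lean`, line 1965. -/
def St_MT : Prop := ∀ (V W U : Type) [AddCommGroup V] [Module (ZMod 2) V] [AddCommGroup W]
  [Module (ZMod 2) W] [AddCommGroup U] [Module (ZMod 2) U] (E : Set V) (F : Set W) (G : Set U),
  Mn E F → Mn F G → Mn E G

/-- EASY. The class of all minors of `E0` has the closure properties; hypothesis `h : St_MT`.
`del`: the same data.  `quo`: `W` is finite dimensional (`Module.Finite.of_surjective`),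
`⊥.map π = ⊥`; by `h` it is enough that `{w | w ≠ 0 ∧ ∃ x ∈ E, π x = w}` is a minor of `E`: take
`K = ker π` and for `σ` a linear right inverse of `π` (`LinearMap.exists_rightInverse_of_surjective`):
`σ w ∈ ker π` gives `w = π (σ w) = 0`; for `w = π x`: `x + σ w ∈ ker π`.  `sub`: `⊥.comap = ⊥`;
`{y : S | y ∈ E}` is a minor of `E` with `K = ⊥`, `σ = S.subtype`.  `sep`: `X' = ⊥`; the new set is
a minor of `E` with `σ = S.subtype` and the subspace `K` of `Fill E S H`:
`K ⊓ S ≤ K ⊓ (S ⊓ H) = ⊥` since `K ≤ H`; `Gen E K` since `E ∩ H ⊆ E`; `Pres`: for `y ∈ E` take `y`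
itself (`y + y = 0`), for `y ∈ H`, `y ≠ 0` it is in `Fill`. -/
def St_MO : Prop := ∀ (V0 : Type) [AddCommGroup V0] [Module (ZMod 2) V0] (E0 : Set V0),
  OK (Mc E0)

/-! ### Light functionals -/

/-- EASY-MEDIUM. The set `Delta` has a cocircuit of size four.  `h, s 0, ..., s (n-1)` is a basis of
`V` (`basisOfLinearIndependentOfCardEqFinrank`); let `f` be the coordinate of `s 1` (`f h = 0`,
`f (s 1) = 1`, `f (s j) = 0` for the other `j < n`).  By induction on `k`:
`s (i + k n) = s i + k h`; so `f (s i) = 1` iff `i % n = 1`.  If `f v ≠ 0` for `v ∈ E`: `v = h` is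
impossible; `v = s i` with `i % n = 1` is `s 1` or `s 1 + h`; `v = s i + s (i+1)` with
`i % n = 1` is `s 1 + s 2` (the multiples of `h` cancel), and with `(i+1) % n = 1`, that is
`i % n = 0`, it is `s 0 + s 1`.  So the support is contained in
`{s 1, s 1 + h, s 0 + s 1, s 1 + s 2}`, at most four elements. -/
def St_Del : Prop := ∀ (V : Type) [AddCommGroup V] [Module (ZMod 2) V]
  [FiniteDimensional (ZMod 2) V] (n : ℕ) (E : Finset V), 4 ≤ n → IsDel n (E : Set V) →
  ∃ f : V →ₗ[ZMod 2] ZMod 2, f ≠ 0 ∧ supp E f ≤ 4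

/-- EASY-MEDIUM. Rank four.  `V` has `16` elements.  Let `C` be the set of the nonzero vectors
outside `E`; `|C| = 15 - |E| ≥ 3`.  Every `f ≠ 0` is nonzero on exactly `8` vectors, so it is
nonzero on `8 - supp E f ≤ 2` elements of `C`.  Every `x ≠ 0` is nonzero for exactly `8` of the
`15` functionals `f ≠ 0`, so (double counting) `8 |C| = ∑_f |{x ∈ C | f x ≠ 0}| ≤ 30`, `|C| ≤ 3`.
So `C = {a, b, c}`, `a1 E = 3`.  If `a, b, c` were independent there would be `f` with
`f a = f b = f c = 1`, against `2`; so, being distinct and nonzero, `c = a + b`.  Hence all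
ordered pairs of distinct elements of `C` have their sum in `C`: `a2 E = 6`. -/
def St_A4 : Prop := ∀ (V : Type) [AddCommGroup V] [Module (ZMod 2) V]
  [FiniteDimensional (ZMod 2) V] (E : Finset V), finrank (ZMod 2) V = 4 → (0 : V) ∉ E →
  E.card ≤ 12 → (∀ f : V →ₗ[ZMod 2] ZMod 2, f ≠ 0 → 6 ≤ supp E f) → a1 E = 3 ∧ a2 E = 6

/-! ### The polynomial as a sum over subspaces -/

/-- EASY-MEDIUM. The sum over the possible kernels.  Both sides are values at `lam` of real
polynomials (the left one is `Qp E ⊥`, `hE : LG.St_Ev`), so by `hP : LG.St_Pid` with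
`k0 = dim V` it is enough to compare the values at `2 ^ k`, `k ≥ dim V`.  By `hC : LG.St_Cnt` the
left side is the number of linear maps `f : V → GF(2)^k` nonzero on `E`, that is with
`ker f ∩ E = ∅`.  For a subspace `K` of dimension `d` the number of `f` with kernel exactly `K` is
the number of injective linear maps `V ⧸ K → GF(2)^k`, that is (images of a basis of `V ⧸ K`,
`m = n - d` vectors) the number of linearly independent families `Fin m → GF(2)^k`, which is
`∏_{i < m} (2^k - 2^i)` by `card_linearIndependent` (Mathlib, `m ≤ k`). -/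
def St_G1 : Prop := ∀ (V : Type) [AddCommGroup V] [Module (ZMod 2) V]
  [FiniteDimensional (ZMod 2) V] [Fintype (Submodule (ZMod 2) V)] (lam : ℝ) (E : Finset V)
  [DecidablePred fun K : Submodule (ZMod 2) V => ∀ x ∈ E, x ∉ K],
  q lam E ⊥ = ∑ K ∈ Finset.univ.filter (fun K : Submodule (ZMod 2) V => ∀ x ∈ E, x ∉ K),
    ∏ i ∈ Finset.range (finrank (ZMod 2) V - finrank (ZMod 2) ↥K), (lam - 2 ^ i)

/-- MEDIUM. The first terms.  In `hG : St_G1` (with `Fintype.ofFinite`, `classical`) all `K` of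
dimension `≥ 2` have terms `≥ 0`, as they are products of some of `lam - 1`, `lam - 2`,
`lam - 4` (at most three factors since `n ≤ 5`).  `K = ⊥` occurs (`0 ∉ E`) with the first term.
The `K` of dimension one are the `{0, x}` with `x ≠ 0`, `x ∉ E`: `x ↦ span {x}` is a bijection from
the set counted by `a1 E` onto them.  The `K` of dimension two in the sum: `(x, y) ↦ span {x, y}`
maps the set counted by `a2 E` onto them (`span {x, y} = {0, x, y, x + y}`), every fibre has six
elements (the ordered pairs of distinct nonzero elements of `K`), so there are `a2 E / 6` of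
them. -/
def St_Low : Prop := ∀ (V : Type) [AddCommGroup V] [Module (ZMod 2) V]
  [FiniteDimensional (ZMod 2) V] (lam : ℝ) (E : Finset V), 5 ≤ lam → 2 ≤ finrank (ZMod 2) V →
  finrank (ZMod 2) V ≤ 5 → (0 : V) ∉ E →
  (∏ i ∈ Finset.range (finrank (ZMod 2) V), (lam - 2 ^ i)) +
    (a1 E : ℝ) * (∏ i ∈ Finset.range (finrank (ZMod 2) V - 1), (lam - 2 ^ i)) +
    ((a2 E : ℝ) / 6) * (∏ i ∈ Finset.range (finrank (ZMod 2) V - 2), (lam - 2 ^ i)) ≤ q lam E ⊥

/-- EASY-MEDIUM. The quadric `Q(4,2)`.  `b` is a basis of `V`, so `c ↦ ∑ c i • b i` is a linear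
bijection from `Fin 5 → ZMod 2` onto `V`.  Outside `E` are the nonzero `c` of weight `1`, `2`, `5`:
`5 + 10 + 1 = 16`; the number of ordered pairs `(c, c')` of distinct nonzero elements with
`c, c', c + c'` of weight `1`, `2` or `5` is `120` (`decide +kernel` over the `1024` pairs of
elements of `Fin 5 → ZMod 2`; checked by computer).  Transport the two sets by the bijection
(`Nat.card_congr`, then `Nat.card_eq_fintype_card`, `Fintype.card_subtype`). -/
def St_Q5 : Prop := ∀ (V : Type) [AddCommGroup V] [Module (ZMod 2) V]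
  [FiniteDimensional (ZMod 2) V] (E : Finset V) (b : Fin 5 → V), finrank (ZMod 2) V = 5 →
  LinearIndependent (ZMod 2) b →
  (∀ c : Fin 5 → ZMod 2, ∑ i, c i • b i ∈ E ↔ wt c = 3 ∨ wt c = 4) →
  a1 E = 16 ∧ a2 E = 120

/-- EASY. Positivity in rank four and five; hypothesis `h : St_Low`.  In rank four the lower bound
is `(lam-1)(lam-2)(lam-4)(lam-8) + 3 (lam-1)(lam-2)(lam-4) + (lam-1)(lam-2)
= (lam-1)(lam-2)(lam^2 - 9 lam + 21)`, in rank five it is
`(lam-1)(lam-2)(lam-4)((lam-8)(lam-16) + 16 (lam-8) + 20) = (lam-1)(lam-2)(lam-4)((lam-4)^2 + 4)`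
(`Finset.prod_range_succ`, `nlinarith` / `positivity`). -/
def St_P45 : Prop := ∀ (V : Type) [AddCommGroup V] [Module (ZMod 2) V]
  [FiniteDimensional (ZMod 2) V] (lam : ℝ) (E : Finset V), 5 ≤ lam → (0 : V) ∉ E →
  ((finrank (ZMod 2) V = 4 ∧ a1 E = 3 ∧ a2 E = 6) ∨
    (finrank (ZMod 2) V = 5 ∧ a1 E = 16 ∧ a2 E = 120)) → 0 < q lam E ⊥

/-! ### Properties of the minor in terms of rank -/

/-- EASY. `G` has at most two elements, all nonzero: over `GF(2)` two distinct nonzero vectors are
independent (`finrank_span_finset_eq_card` / `finrank_span_singleton`, `finrank_span_set_eq_card`,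
`LinearIndependent.pair_iff`). -/
def St_F1 : Prop := ∀ (W : Type) [AddCommGroup W] [Module (ZMod 2) W] (F : Finset W),
  (0 : W) ∉ F → ∀ G ⊆ F, G.card ≤ 2 →
  finrank (ZMod 2) ↥(span (ZMod 2) (G : Set W)) = G.card

/-- EASY-MEDIUM. Vertical 4-connectivity.  Let `H = span (F \ G)`, `S = span G`, both proper (their
dimension is less than `n`).  As `F` spans `W` (`Good.span`) some `a ∈ F` is not in `H`.  Let
`S' = span (F \ H)` (the elements of `F` outside `H`); they are in `G`, so `S' ≤ S ≠ ⊤`.  Some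
`b ∈ F` with `b ∈ H` is not in `S'` (otherwise `S'` would contain `F` and be `⊤`).  `Good.vc` for
`H` gives `3 ≤ dim (S' ⊓ H) ≤ dim (S ⊓ H)`.  `S ⊔ H = ⊤`, so
`dim S + dim H = n + dim (S ⊓ H) ≥ n + 3` (`Submodule.finrank_sup_add_finrank_inf_eq`). -/
def St_F2 : Prop := ∀ (W : Type) [AddCommGroup W] [Module (ZMod 2) W]
  [FiniteDimensional (ZMod 2) W] [DecidableEq W] (F : Finset W), Good (F : Set W) → ∀ G ⊆ F,
  finrank (ZMod 2) ↥(span (ZMod 2) (G : Set W)) < finrank (ZMod 2) W →
  finrank (ZMod 2) ↥(span (ZMod 2) ((F \ G : Finset W) : Set W)) < finrank (ZMod 2) W →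
  finrank (ZMod 2) W + 3 ≤ finrank (ZMod 2) ↥(span (ZMod 2) (G : Set W)) +
    finrank (ZMod 2) ↥(span (ZMod 2) ((F \ G : Finset W) : Set W))

/-- EASY. There is a subspace `U` of dimension exactly three containing `span G` (dimension at most
three, `W` has dimension at least three; add vectors one by one, or
`Submodule.exists_le_finrank_eq`-like lemmas / extend a basis), and `G ⊆ F ∩ U`, so
`|G| ≤ (F ∩ U).ncard ≤ 5` by `NoPl`. -/
def St_F3 : Prop := ∀ (W : Type) [AddCommGroup W] [Module (ZMod 2) W]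
  [FiniteDimensional (ZMod 2) W] (F : Finset W), NoPl (F : Set W) → 3 ≤ finrank (ZMod 2) W →
  ∀ G ⊆ F, finrank (ZMod 2) ↥(span (ZMod 2) (G : Set W)) ≤ 3 → G.card ≤ 5

/-- EASY-MEDIUM. Triangles.  `tri F` is the number of ordered pairs `(a, b)` of elements of `F` with
`a + b ∈ F`.  A set `G ⊆ F` of three elements `x, y, z` with `dim (span G) = 2` satisfies
`x + y = z`: the span has four elements, the three nonzero ones are `x, y, z`, and `x + y` is a
nonzero one different from `x` and `y`.  So the six ordered pairs `(a, b)` of distinct elements of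
`G` are counted by `tri F`, and `(a, b)` determines `G = {a, b, a + b}`: the sets of pairs of
different `G` are disjoint (`Finset.card_biUnion`, or an injection from the pairs
`(G, (a, b))`, `Finset.card_sigma`, and `G.offDiag.card = 6`, `Finset.offDiag_card`). -/
def St_F4 : Prop := ∀ (W : Type) [AddCommGroup W] [Module (ZMod 2) W] [DecidableEq W]
  (F : Finset W), (0 : W) ∉ F →
  6 * ((F.powersetCard 3).filter fun G : Finset W =>
    finrank (ZMod 2) ↥(span (ZMod 2) (G : Set W)) = 2).card ≤ tri F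

/-- EASY. Cocircuits.  `span (F \ G)` is a proper subspace, so there is a functional `f ≠ 0` which
vanishes on it (`Submodule.exists_le_ker_of_lt_top`); the elements of `F` with `f x ≠ 0` are in
`G`, so `lam < supp F f ≤ |G|` (`Set.ncard_le_ncard`, `Set.ncard_coe_finset`). -/
def St_F5 : Prop := ∀ (W : Type) [AddCommGroup W] [Module (ZMod 2) W]
  [FiniteDimensional (ZMod 2) W] [DecidableEq W] (lam : ℝ) (F : Finset W),
  (∀ f : W →ₗ[ZMod 2] ZMod 2, f ≠ 0 → lam < (supp F f : ℝ)) → ∀ G ⊆ F,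
  finrank (ZMod 2) ↥(span (ZMod 2) ((F \ G : Finset W) : Set W)) < finrank (ZMod 2) W →
  lam < G.card

/-! ### Translation to a family of vectors -/

/-- EASY. The sets `Y` and `T = g(F)`.  Let `K`, `σ` be the data of `Mn`.  Put
`Y = {i | v i ∈ K}`; then `v '' Y = range v ∩ K` and `span (v '' Y) = K` (`Gen`).  For `x ∈ F` choose
`g x = i` with `v i + σ x ∈ K` (`Pres`); outside `F` let `g` be any constant (`ι` is not empty,
because `F` is not).  `inj`: `g x = g y` gives `σ (x + y) = (v i + σ x) + (v i + σ y) ∈ K`, so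
`x + y = 0`.  `dis`: `v (g x) ∈ K` would give `σ x ∈ K`, `x = 0`, against `0 ∉ F`. -/
def St_Tr : Prop := ∀ (n : ℕ) (ι : Type) [Fintype ι] [DecidableEq ι]
  (v : ι → (Fin n → ZMod 2)) (W : Type) [AddCommGroup W] [Module (ZMod 2) W] (F : Finset W),
  F.Nonempty → (0 : W) ∉ F → Mn (Set.range v) (F : Set W) →
  ∃ (Y : Finset ι) (g : W → ι) (σ : W →ₗ[ZMod 2] (Fin n → ZMod 2)), Tr v F Y g σ

/-- EASY-MEDIUM. The rank.  Let `K = span (v '' Y)`.  The span of `v '' (g(G) ∪ Y)` is
`span (v '' g(G)) ⊔ K = (span G).map σ ⊔ K` (by `cong` each `v (g x)` is `σ x` plus an element of `K`,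
and conversely).  `(span G).map σ ⊓ K = ⊥` and `σ` is injective (`ker`), so its dimension is
`dim (span G) + dim K` (`Submodule.finrank_sup_add_finrank_inf_eq`,
`LinearMap.finrank_map_eq..` / `LinearEquiv.finrank_eq (Submodule.equivMapOfInjective ..)`). -/
def St_Rk : Prop := ∀ (n : ℕ) (ι : Type) [Fintype ι] [DecidableEq ι]
  (v : ι → (Fin n → ZMod 2)) (W : Type) [AddCommGroup W] [Module (ZMod 2) W]
  [FiniteDimensional (ZMod 2) W] (F : Finset W) (Y : Finset ι) (g : W → ι)
  (σ : W →ₗ[ZMod 2] (Fin n → ZMod 2)), Tr v F Y g σ → ∀ G ⊆ F,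
  rkm v Y (G.image g) = finrank (ZMod 2) ↥(span (ZMod 2) (G : Set W))

/-- EASY-MEDIUM. The polynomial; hypothesis `h : St_Rk`.  `G ↦ G.image g` is a bijection from the
subsets of `F` onto the subsets of `F.image g` (`g` is injective on `F`), it preserves the number
of elements (`Finset.card_image_of_injOn`), `rkm v Y (G.image g) = dim (span G)`, and
`rkm v Y (F.image g) = dim (span F) = dim W`.  In `q lam F ⊥` the exponent is
`dim W - dim (span G ⊔ ⊥)`, `sup_bot_eq`.  (`Finset.sum_nbij` / `Finset.sum_bij`, inverse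
`A ↦ F.filter (g x ∈ A)`.) -/
def St_Cp : Prop := ∀ (n : ℕ) (ι : Type) [Fintype ι] [DecidableEq ι]
  (v : ι → (Fin n → ZMod 2)) (W : Type) [AddCommGroup W] [Module (ZMod 2) W]
  [FiniteDimensional (ZMod 2) W] (F : Finset W) (Y : Finset ι) (g : W → ι)
  (σ : W →ₗ[ZMod 2] (Fin n → ZMod 2)) (lam : ℝ), Tr v F Y g σ →
  span (ZMod 2) (F : Set W) = ⊤ → chm v lam (F.image g) Y = q lam F ⊥

/-- EASY-MEDIUM. Transport of the properties; hypothesis `h : St_Rk`.  Every `A ⊆ F.image g` is
`G.image g` with `G = F.filter (g x ∈ A) ⊆ F`, `|A| = |G|` (`g` is injective on `F`),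
`F.image g \ A = (F \ G).image g`, `rkm v Y A = dim (span G)` and
`rkm v Y (F.image g) = dim (span F) = dim W`.  So each field of `Reduced` is the field of `RedF`.
For `triangles`: the sets `A` counted in `F.image g` are the images of the sets `G` counted in `F`
(`G ↦ G.image g` maps the second set onto the first, `Finset.card_le_card_of_surjOn` or
`card_image_le`). -/
def St_Tp : Prop := ∀ (n : ℕ) (ι : Type) [Fintype ι] [DecidableEq ι]
  (v : ι → (Fin n → ZMod 2)) (W : Type) [AddCommGroup W] [Module (ZMod 2) W]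
  [FiniteDimensional (ZMod 2) W] [DecidableEq W] (F : Finset W) (Y : Finset ι) (g : W → ι)
  (σ : W →ₗ[ZMod 2] (Fin n → ZMod 2)) (lam : ℝ), Tr v F Y g σ →
  span (ZMod 2) (F : Set W) = ⊤ → RedF lam F → Reduced v lam (F.image g) Y

/-- EASY-MEDIUM. The corank at `lam = 5`; hypothesis `h : St_Rk`; import also
`Pool.Agent.Work.MP_9f8812_co.SC4` (light, Mathlib only).  Let `T = F.image g`,
`K = span (v '' Y)`.  Assume `|F| ≤ dim W + 7`.  `SC4.pos_of_cor` (namespace
`Pool.Agent.Work.MP_9f8812_co`) for `S = T`, `W = K`: no `v e`, `e ∈ T`, is in `K` (`v (g x) ∈ K` gives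
`σ x ∈ K`, `x = 0`, against `0 ∉ F`), and `Cor v T K 7`, that is `|T| + dim K ≤ D v T K + 7`, holds
because `|T| = |F|` and `D v T K = dim (span (v '' T) ⊔ K) = rk v (T ∪ Y) = dim K + dim W`
(`h` for `G = F`; `rk v Y ≤ rk v (T ∪ Y)`).  So `0 < P v T K`, an integer,
`P v T K = ∑_{X ⊆ T} (-1)^|X| 5^(n - D v X K)`, and for `X = G.image g`, `G ⊆ F`:
`n - D v X K = (n - D v T K) + (dim W - dim (span G))`.  So
`(P v T K : ℝ) = 5 ^ (n - D v T K) * q 5 F ⊥`, and `0 < q 5 F ⊥`, a contradiction. -/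
def St_Crk : Prop := ∀ (n : ℕ) (ι : Type) [Fintype ι] [DecidableEq ι]
  (v : ι → (Fin n → ZMod 2)) (W : Type) [AddCommGroup W] [Module (ZMod 2) W]
  [FiniteDimensional (ZMod 2) W] (F : Finset W) (Y : Finset ι) (g : W → ι)
  (σ : W →ₗ[ZMod 2] (Fin n → ZMod 2)), Tr v F Y g σ → (0 : W) ∉ F →
  span (ZMod 2) (F : Set W) = ⊤ → q 5 F ⊥ ≤ 0 → finrank (ZMod 2) W + 8 ≤ F.card

end Pool.Agent.Work.MP_9f8812_co.RD
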